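import Mathlib

/-!
# Separation in graphs with a 2-face structure

Abstract counting behind the upper bound for the number of nodes of a simple polytope that can be
totally separated by few nodes.
-/

namespace Pool.Agent.Helper26.PolySep

open Finset

/-- Local coordinates of a graph at each node, as in the graph of a simple `d`-polytope: the
neighbours of `v` are `nb v i`, every node `w` has a support `supp v w` (the coordinates at `v`
that do not vanish at `w`), and for `i ≠ j` the nodes `≠ v` with support in `{i, j}` connect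
`nb v i` with `nb v j`. -/
structure LocalData {V : Type*} (G : SimpleGraph V) (d : ℕ) where
  nb : V → Fin d → V
  supp : V → V → Finset (Fin d)
  adj_nb : ∀ v i, G.Adj v (nb v i)
  nb_surj : ∀ v x, G.Adj v x → ∃ i, nb v i = x
  supp_self : ∀ v, supp v v = ∅
  supp_nb : ∀ v i, supp v (nb v i) = {i}
  eq_self : ∀ v w, supp v w = ∅ → w = v
  eq_nb : ∀ v w i, supp v w = {i} → w = nb v i
  face : ∀ v i j, i ≠ j → ∀ C : Set V,
    (∀ x y, G.Adj x y → x ≠ v → y ≠ v → supp v x ⊆ {i, j} → supp v y ⊆ {i, j} →
      (x ∈ C ↔ y ∈ C)) → (nb v i ∈ C ↔ nb v j ∈ C)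

section

variable {V : Type*} {G : SimpleGraph V} {d : ℕ} (L : LocalData G d)

lemma LocalData.nb_injective (v : V) : Function.Injective (L.nb v) := by
  intro i j h
  have h1 := L.supp_nb v i
  rw [h, L.supp_nb v j] at h1
  exact (Finset.singleton_injective h1).symm

variable [Fintype V] [DecidableEq V] (M : Finset V) {K : ℕ} (lab : V → Fin K)

/-- `v` has a neighbour outside `M` with label `a`. -/
def Sees (v : V) (a : Fin K) : Prop := ∃ i, L.nb v i ∉ M ∧ lab (L.nb v i) = a

open Classical in
/-- the labels seen by `v` -/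
noncomputable def seen (v : V) : Finset (Fin K) := Finset.univ.filter fun a => Sees L M lab v a

open Classical in
/-- the coordinates of the neighbours of `v` in `M` -/
noncomputable def dz (v : V) : Finset (Fin d) := Finset.univ.filter fun i => L.nb v i ∈ M

variable {M lab}

lemma mem_seen {v : V} {a : Fin K} : a ∈ seen L M lab v ↔ Sees L M lab v a := by
  simp [seen]

lemma mem_dz {v : V} {i : Fin d} : i ∈ dz L M v ↔ L.nb v i ∈ M := by
  simp [dz]

lemma sees_of_adj {x y : V} (hxy : G.Adj y x) (hx : x ∉ M) : Sees L M lab y (lab x) := by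
  obtain ⟨i, hi⟩ := L.nb_surj y x hxy
  exact ⟨i, by rw [hi]; exact hx, by rw [hi]⟩

lemma exists_pair (hlab : ∀ x y, G.Adj x y → x ∉ M → y ∉ M → lab x = lab y) {v : V} {i j : Fin d}
    (hi : L.nb v i ∉ M) (hj : ¬ (L.nb v j ∉ M ∧ lab (L.nb v j) = lab (L.nb v i)))
    (hj' : ¬ (L.nb v j ∈ M ∧ Sees L M lab (L.nb v j) (lab (L.nb v i)))) :
    ∃ w ∈ M, L.supp v w = {i, j} := by
  classical
  by_contra hcon
  push Not at hcon
  have hij : i ≠ j := by
    rintro rfl
    exact hj ⟨hi, rfl⟩
  set C : Set V := {x | x ∉ M ∧ lab x = lab (L.nb v i)} with hC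
  have key : ∀ x y, G.Adj x y → x ≠ v → y ≠ v → L.supp v x ⊆ {i, j} → L.supp v y ⊆ {i, j} →
      x ∈ C → y ∈ C := by
    intro x y hxy _ hyv _ hsy hx
    by_cases hyM : y ∈ M
    · exfalso
      have h0 : L.supp v y ≠ ∅ := fun h => hyv (L.eq_self v y h)
      have h1 : L.supp v y ≠ {i, j} := hcon y hyM
      have h2 : L.supp v y ≠ {i} := fun h => by
        have := L.eq_nb v y i h
        rw [this] at hyM
        exact hi hyM
      have h3 : L.supp v y ≠ {j} := fun h => by
        have h4 := L.eq_nb v y j h
        apply hj'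
        rw [← h4]
        refine ⟨hyM, ?_⟩
        have h5 := sees_of_adj L (M := M) (lab := lab) hxy.symm hx.1
        rwa [hx.2] at h5
      rcases (Finset.subset_insert_iff.mp hsy) with _
      have : L.supp v y ∈ ({i, j} : Finset (Fin d)).powerset := Finset.mem_powerset.mpr hsy
      rw [Finset.powerset_insert, Finset.mem_union, Finset.mem_image] at this
      rcases this with h | ⟨t, ht, h⟩
      · rw [Finset.mem_powerset, Finset.subset_singleton_iff] at h
        rcases h with h | h
        · exact h0 h
        · exact h3 h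
      · rw [Finset.mem_powerset, Finset.subset_singleton_iff] at ht
        rcases ht with rfl | rfl
        · exact h2 (by rw [← h]; simp)
        · exact h1 h.symm
    · exact ⟨hyM, by rw [← hlab x y hxy hx.1 hyM]; exact hx.2⟩
  have := L.face v i j hij C fun x y hxy hx hy hsx hsy =>
    ⟨key x y hxy hx hy hsx hsy, key y x hxy.symm hy hx hsy hsx⟩
  exact hj (this.mp ⟨hi, rfl⟩)

open Classical in
/-- The basic count at a node `v`. -/
theorem local_count (hd : 0 < d) (hlab : ∀ x y, G.Adj x y → x ∉ M → y ∉ M → lab x = lab y) {v : V}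
    (hv : v ∈ M) :
    1 + (dz L M v).card + (seen L M lab v).card.choose 2 +
      ((seen L M lab v).card - 1) * (d - (seen L M lab v).card - (dz L M v).card) +
      ∑ l ∈ dz L M v, ((seen L M lab v).filter fun a => ¬ Sees L M lab (L.nb v l) a).card
      ≤ M.card := by
  -- representatives
  have : Nonempty (Fin d) := ⟨⟨0, hd⟩⟩
  have hrep : ∀ a ∈ seen L M lab v, ∃ i, L.nb v i ∉ M ∧ lab (L.nb v i) = a := fun a ha =>
    (mem_seen L).mp ha
  choose! rep hrep1 hrep2 using hrep
  set A := seen L M lab v with hA
  set Z := dz L M v with hZ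
  have hinj : Set.InjOn rep (A : Set (Fin K)) := by
    intro a ha b hb h
    rw [← hrep2 a ha, ← hrep2 b hb, h]
  set R := A.image rep with hR
  have hRcard : R.card = A.card := Finset.card_image_of_injOn hinj
  have hRZ : Disjoint R Z := by
    rw [Finset.disjoint_left]
    intro i hi hi'
    obtain ⟨a, ha, rfl⟩ := Finset.mem_image.mp hi
    exact hrep1 a ha ((mem_dz L).mp hi')
  set E := Finset.univ \ (R ∪ Z) with hE
  have hEcard : E.card = d - A.card - Z.card := by
    rw [hE, Finset.card_sdiff_of_subset (Finset.subset_univ _), Finset.card_union_of_disjoint hRZ,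
      hRcard, Finset.card_univ, Fintype.card_fin]
    omega
  have hEZ : Disjoint E Z := by
    rw [Finset.disjoint_left]
    intro i hi hi'
    rw [hE, Finset.mem_sdiff] at hi
    exact hi.2 (Finset.mem_union_right _ hi')
  -- the pairs
  let good : Fin d → Finset (Fin K) := fun i =>
    if L.nb v i ∈ M then A.filter fun a => ¬ Sees L M lab (L.nb v i) a
    else A.erase (lab (L.nb v i))
  set Q := (E ∪ Z).sigma good with hQ
  have hQcard : Q.card = (A.card - 1) * (d - A.card - Z.card) +
      ∑ l ∈ Z, (A.filter fun a => ¬ Sees L M lab (L.nb v l) a).card := by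
    rw [hQ, Finset.card_sigma, Finset.sum_union hEZ, ← hEcard]
    congr 1
    · rw [mul_comm, ← smul_eq_mul, ← Finset.sum_const]
      refine Finset.sum_congr rfl fun i hi => ?_
      have hiM : L.nb v i ∉ M := fun h => (Finset.disjoint_left.mp hEZ) hi ((mem_dz L).mpr h)
      simp only [good, if_neg hiM]
      exact Finset.card_erase_of_mem ((mem_seen L).mpr ⟨i, hiM, rfl⟩)
    · refine Finset.sum_congr rfl fun l hl => ?_
      simp only [good, if_pos ((mem_dz L).mp hl)]
  let pr : (Σ _ : Fin d, Fin K) → Finset (Fin d) := fun q => {q.1, rep q.2}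
  have hQR : ∀ q ∈ Q, q.1 ∉ R ∧ q.2 ∈ A := by
    intro q hq
    rw [hQ, Finset.mem_sigma] at hq
    refine ⟨?_, ?_⟩
    · rcases Finset.mem_union.mp hq.1 with h | h
      · rw [hE, Finset.mem_sdiff] at h
        exact fun h' => h.2 (Finset.mem_union_left _ h')
      · exact Finset.disjoint_right.mp hRZ h
    · have := hq.2
      simp only [good] at this
      split_ifs at this with h
      · exact (Finset.mem_filter.mp this).1
      · exact Finset.mem_of_mem_erase this
  have hprinj : Set.InjOn pr (Q : Set (Σ _ : Fin d, Fin K)) := by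
    rintro ⟨i, a⟩ hq ⟨i', a'⟩ hq' h
    obtain ⟨hi, ha⟩ := hQR _ hq
    obtain ⟨hi', ha'⟩ := hQR _ hq'
    simp only [pr] at h hi ha hi' ha'
    have hra : rep a ∈ R := Finset.mem_image_of_mem rep ha
    have hra' : rep a' ∈ R := Finset.mem_image_of_mem rep ha'
    have h1 : i ∈ ({i', rep a'} : Finset (Fin d)) := by rw [← h]; simp
    have h2 : rep a ∈ ({i', rep a'} : Finset (Fin d)) := by rw [← h]; simp
    rw [Finset.mem_insert, Finset.mem_singleton] at h1 h2
    have e1 : i = i' := by
      rcases h1 with h1 | h1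
      · exact h1
      · exact absurd (h1 ▸ hra') hi
    have e2 : rep a = rep a' := by
      rcases h2 with h2 | h2
      · exact absurd (h2 ▸ hra) hi'
      · exact h2
    have e3 : a = a' := hinj ha ha' e2
    rw [e1, e3]
  -- the family of supports
  set F1 : Finset (Finset (Fin d)) := {∅} with hF1
  set F2 : Finset (Finset (Fin d)) := Z.image fun l => {l} with hF2
  set F3 : Finset (Finset (Fin d)) := R.powersetCard 2 with hF3
  set F4 : Finset (Finset (Fin d)) := Q.image pr with hF4
  have hF2card : F2.card = Z.card := Finset.card_image_of_injective _ Finset.singleton_injective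
  have hF3card : F3.card = A.card.choose 2 := by rw [hF3, Finset.card_powersetCard, hRcard]
  have hF4card : F4.card = Q.card := Finset.card_image_of_injOn hprinj
  have c1 : ∀ t ∈ F1, t.card = 0 := by simp [hF1]
  have c2 : ∀ t ∈ F2, t.card = 1 := by
    intro t ht
    obtain ⟨l, _, rfl⟩ := Finset.mem_image.mp ht
    simp
  have c3 : ∀ t ∈ F3, t.card = 2 ∧ t ⊆ R := by
    intro t ht
    rw [hF3, Finset.mem_powersetCard] at ht
    exact ⟨ht.2, ht.1⟩
  have c4 : ∀ t ∈ F4, t.card = 2 ∧ ¬ t ⊆ R := by
    intro t ht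
    obtain ⟨q, hq, rfl⟩ := Finset.mem_image.mp ht
    obtain ⟨h1, h2⟩ := hQR q hq
    have hra : rep q.2 ∈ R := Finset.mem_image_of_mem rep h2
    refine ⟨Finset.card_pair fun h => h1 (h ▸ hra), fun h => h1 (h ?_)⟩
    simp [pr]
  have d12 : Disjoint F1 F2 := by
    rw [Finset.disjoint_left]; intro t h1 h2
    have := c1 t h1; have := c2 t h2; omega
  have d123 : Disjoint (F1 ∪ F2) F3 := by
    rw [Finset.disjoint_left]; intro t h1 h2
    have := (c3 t h2).1
    rcases Finset.mem_union.mp h1 with h | h
    · have := c1 t h; omega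
    · have := c2 t h; omega
  have d1234 : Disjoint (F1 ∪ F2 ∪ F3) F4 := by
    rw [Finset.disjoint_left]; intro t h1 h2
    have h3 := c4 t h2
    rcases Finset.mem_union.mp h1 with h | h
    · rcases Finset.mem_union.mp h with h | h
      · have := c1 t h; omega
      · have := c2 t h; omega
    · exact h3.2 (c3 t h).2
  have hcard : (F1 ∪ F2 ∪ F3 ∪ F4).card = 1 + Z.card + A.card.choose 2 + Q.card := by
    rw [Finset.card_union_of_disjoint d1234, Finset.card_union_of_disjoint d123,
      Finset.card_union_of_disjoint d12, hF2card, hF3card, hF4card, hF1, Finset.card_singleton]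
  have hsub : F1 ∪ F2 ∪ F3 ∪ F4 ⊆ M.image (L.supp v) := by
    intro t ht
    rw [Finset.mem_image]
    rcases Finset.mem_union.mp ht with ht | ht
    · rcases Finset.mem_union.mp ht with ht | ht
      · rcases Finset.mem_union.mp ht with ht | ht
        · rw [hF1, Finset.mem_singleton] at ht
          exact ⟨v, hv, by rw [ht]; exact L.supp_self v⟩
        · obtain ⟨l, hl, rfl⟩ := Finset.mem_image.mp ht
          exact ⟨L.nb v l, (mem_dz L).mp hl, L.supp_nb v l⟩
      · rw [hF3, Finset.mem_powersetCard] at ht
        obtain ⟨x, y, hxy, rfl⟩ := Finset.card_eq_two.mp ht.2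
        obtain ⟨a, ha, hax⟩ := Finset.mem_image.mp (ht.1 (Finset.mem_insert_self x _))
        obtain ⟨b, hb, hby⟩ := Finset.mem_image.mp (ht.1 (Finset.mem_insert_of_mem
          (Finset.mem_singleton_self y)))
        subst hax hby
        refine exists_pair L hlab (hrep1 a ha) ?_ ?_
        · rintro ⟨_, h⟩
          rw [hrep2 a ha, hrep2 b hb] at h
          exact hxy (by rw [h])
        · exact fun h => hrep1 b hb h.1
    · obtain ⟨q, hq, rfl⟩ := Finset.mem_image.mp ht
      obtain ⟨h1, h2⟩ := hQR q hq
      have h3 := (Finset.mem_sigma.mp (hQ ▸ hq)).2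
      simp only [good] at h3
      have hcomm : pr q = {rep q.2, q.1} := Finset.pair_comm _ _
      rw [hcomm]
      refine exists_pair L hlab (hrep1 _ h2) ?_ ?_
      · rintro ⟨h4, h5⟩
        rw [if_neg h4, Finset.mem_erase] at h3
        rw [hrep2 _ h2] at h5
        exact h3.1 h5.symm
      · rintro ⟨h4, h5⟩
        rw [if_pos h4, Finset.mem_filter] at h3
        rw [hrep2 _ h2] at h5
        exact h3.2 h5
  calc _ = (F1 ∪ F2 ∪ F3 ∪ F4).card := by rw [hcard, hQcard]; ring
    _ ≤ (M.image (L.supp v)).card := Finset.card_le_card hsub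
    _ ≤ M.card := Finset.card_image_le

open Classical in
/-- each label is seen by at least `d` nodes of `M` -/
lemma sees_card (hconn : ∀ S C : Set V, S.ncard < d →
      (∀ x y, G.Adj x y → x ∉ S → y ∉ S → (x ∈ C ↔ y ∈ C)) →
      ∀ a b, a ∉ S → b ∉ S → (a ∈ C ↔ b ∈ C))
    (hlab : ∀ x y, G.Adj x y → x ∉ M → y ∉ M → lab x = lab y)
    (hsurj : ∀ a, ∃ x, x ∉ M ∧ lab x = a) (hK : 2 ≤ K) (u : Fin K) :
    d ≤ (M.filter fun v => Sees L M lab v u).card := by
  by_contra hlt
  push Not at hlt
  set S : Set V := ((M.filter fun v => Sees L M lab v u : Finset V) : Set V) with hS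
  set C : Set V := {x | x ∉ M ∧ lab x = u} with hC
  have hScard : S.ncard < d := by rw [hS, Set.ncard_coe_finset]; exact hlt
  have key : ∀ x y, G.Adj x y → x ∉ S → y ∉ S → x ∈ C → y ∈ C := by
    intro x y hxy _ hy hx
    by_cases hyM : y ∈ M
    · exfalso
      apply hy
      rw [hS, Finset.mem_coe, Finset.mem_filter]
      refine ⟨hyM, ?_⟩
      have := sees_of_adj L (M := M) (lab := lab) hxy.symm hx.1
      rwa [hx.2] at this
    · exact ⟨hyM, by rw [← hlab x y hxy hx.1 hyM]; exact hx.2⟩
  obtain ⟨x, hxM, hxu⟩ := hsurj u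
  obtain ⟨u', hu'⟩ : ∃ u' : Fin K, u' ≠ u := by
    have : Nontrivial (Fin K) := Fin.nontrivial_iff_two_le.mpr hK
    exact exists_ne u
  obtain ⟨y, hyM, hyu⟩ := hsurj u'
  have hxS : x ∉ S := fun h => hxM (Finset.mem_filter.mp (Finset.mem_coe.mp h)).1
  have hyS : y ∉ S := fun h => hyM (Finset.mem_filter.mp (Finset.mem_coe.mp h)).1
  have := (hconn S C hScard (fun x y hxy hx hy => ⟨key x y hxy hx hy, key y x hxy.symm hy hx⟩)
    x y hxS hyS).mp ⟨hxM, hxu⟩
  exact hu' (hyu.symm.trans this.2)

open Classical in
/-- Combined count at a node of `M` seeing the maximal number of labels. -/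
theorem max_count (hd : 0 < d) (hconn : ∀ S C : Set V, S.ncard < d →
      (∀ x y, G.Adj x y → x ∉ S → y ∉ S → (x ∈ C ↔ y ∈ C)) →
      ∀ a b, a ∉ S → b ∉ S → (a ∈ C ↔ b ∈ C))
    (hlab : ∀ x y, G.Adj x y → x ∉ M → y ∉ M → lab x = lab y)
    (hsurj : ∀ a, ∃ x, x ∉ M ∧ lab x = a) (hK : 2 ≤ K) {v : V} (hv : v ∈ M)
    (hmax : ∀ w ∈ M, (seen L M lab w).card ≤ (seen L M lab v).card)
    (U : Finset (Fin K)) (hU : Disjoint U (seen L M lab v)) :
    1 + (dz L M v).card + (seen L M lab v).card.choose 2 +
      ((seen L M lab v).card - 1) * (d - (seen L M lab v).card - (dz L M v).card) +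
      U.card * ((dz L M v).card + 1 + d) ≤ M.card + U.card * M.card := by
  have h0 := local_count L hd hlab hv
  set A := seen L M lab v with hA
  set Z := dz L M v with hZ
  have h1 : ∑ u ∈ U, (Z.filter fun l => Sees L M lab (L.nb v l) u).card ≤
      ∑ l ∈ Z, (A.filter fun a => ¬ Sees L M lab (L.nb v l) a).card := by
    have e1 : ∑ u ∈ U, (Z.filter fun l => Sees L M lab (L.nb v l) u).card =
        ∑ l ∈ Z, (U.filter fun u => Sees L M lab (L.nb v l) u).card := by
      simp only [Finset.card_filter]
      exact Finset.sum_comm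
    rw [e1]
    refine Finset.sum_le_sum fun l hl => ?_
    have hw : L.nb v l ∈ M := (mem_dz L).mp hl
    set w := L.nb v l with hwdef
    have h2 := hmax w hw
    have h3 : (A.filter fun a => Sees L M lab w a).card +
        (A.filter fun a => ¬ Sees L M lab w a).card = A.card :=
      Finset.card_filter_add_card_filter_not _
    have h4 : (A.filter fun a => Sees L M lab w a).card + (U.filter fun u => Sees L M lab w u).card
        ≤ (seen L M lab w).card := by
      rw [← Finset.card_union_of_disjoint]
      · apply Finset.card_le_card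
        intro a ha
        rw [mem_seen]
        rcases Finset.mem_union.mp ha with h | h
        · exact (Finset.mem_filter.mp h).2
        · exact (Finset.mem_filter.mp h).2
      · exact (Finset.disjoint_filter_filter hU).symm
    omega
  have h2 : ∀ u ∈ U, Z.card + 1 + d ≤ (Z.filter fun l => Sees L M lab (L.nb v l) u).card + M.card := by
    intro u hu
    have h3 := sees_card L hconn hlab hsurj hK u
    have h4 : (M.filter fun v => Sees L M lab v u).card +
        (M.filter fun v => ¬ Sees L M lab v u).card = M.card :=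
      Finset.card_filter_add_card_filter_not _
    have h5 : (Z.filter fun l => Sees L M lab (L.nb v l) u).card +
        (Z.filter fun l => ¬ Sees L M lab (L.nb v l) u).card = Z.card :=
      Finset.card_filter_add_card_filter_not _
    have h6 : 1 + (Z.filter fun l => ¬ Sees L M lab (L.nb v l) u).card ≤
        (M.filter fun v => ¬ Sees L M lab v u).card := by
      have hvu : ¬ Sees L M lab v u := fun h =>
        (Finset.disjoint_left.mp hU) hu ((mem_seen L).mpr h)
      set T := (Z.filter fun l => ¬ Sees L M lab (L.nb v l) u).image (L.nb v) with hT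
      have hTcard : T.card = (Z.filter fun l => ¬ Sees L M lab (L.nb v l) u).card :=
        Finset.card_image_of_injective _ (L.nb_injective v)
      have hvT : v ∉ T := by
        intro h
        obtain ⟨l, _, hl⟩ := Finset.mem_image.mp h
        exact (L.adj_nb v l).ne hl.symm
      have hsub : insert v T ⊆ M.filter fun v => ¬ Sees L M lab v u := by
        intro x hx
        rcases Finset.mem_insert.mp hx with rfl | hx
        · exact Finset.mem_filter.mpr ⟨hv, hvu⟩
        · obtain ⟨l, hl, rfl⟩ := Finset.mem_image.mp hx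
          have := Finset.mem_filter.mp hl
          exact Finset.mem_filter.mpr ⟨(mem_dz L).mp this.1, this.2⟩
      have := Finset.card_le_card hsub
      rw [Finset.card_insert_of_notMem hvT, hTcard] at this
      omega
    omega
  have h3 : U.card * (Z.card + 1 + d) ≤
      ∑ u ∈ U, (Z.filter fun l => Sees L M lab (L.nb v l) u).card + U.card * M.card := by
    calc U.card * (Z.card + 1 + d) = ∑ u ∈ U, (Z.card + 1 + d) := by simp
      _ ≤ ∑ u ∈ U, ((Z.filter fun l => Sees L M lab (L.nb v l) u).card + M.card) :=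
          Finset.sum_le_sum h2
      _ = _ := by rw [Finset.sum_add_distrib]; simp
  omega

open Classical in
/-- average count -/
theorem avg_count (hconn : ∀ S C : Set V, S.ncard < d →
      (∀ x y, G.Adj x y → x ∉ S → y ∉ S → (x ∈ C ↔ y ∈ C)) →
      ∀ a b, a ∉ S → b ∉ S → (a ∈ C ↔ b ∈ C))
    (hlab : ∀ x y, G.Adj x y → x ∉ M → y ∉ M → lab x = lab y)
    (hsurj : ∀ a, ∃ x, x ∉ M ∧ lab x = a) (hK : 2 ≤ K) {s : ℕ}
    (hmax : ∀ w ∈ M, (seen L M lab w).card ≤ s) : K * d ≤ M.card * s := by
  calc K * d = ∑ u : Fin K, d := by simp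
    _ ≤ ∑ u : Fin K, (M.filter fun v => Sees L M lab v u).card :=
        Finset.sum_le_sum fun u _ => sees_card L hconn hlab hsurj hK u
    _ = ∑ v ∈ M, (seen L M lab v).card := by
        simp only [seen, Finset.card_filter]
        exact Finset.sum_comm
    _ ≤ ∑ v ∈ M, s := Finset.sum_le_sum hmax
    _ = M.card * s := by simp

end

end Pool.Agent.Helper26.PolySep
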