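import Mathlib
import Pool.Agent.Helper26.PolySep.Abs

/-!
# The abstract upper bound
-/

namespace Pool.Agent.Helper26.PolySep

open Finset

lemma two_choose (a : ℕ) : (2 : ℤ) * ((a.choose 2 : ℕ) : ℤ) = (a : ℤ) * ((a : ℤ) - 1) := by
  rcases Nat.eq_zero_or_pos a with rfl | ha
  · simp
  · have h := Nat.choose_two_right a
    have h2 : 2 ∣ a * (a - 1) := (Nat.even_mul_pred_self a).two_dvd
    have h3 : 2 * a.choose 2 = a * (a - 1) := by
      rw [h]; exact Nat.mul_div_cancel' h2
    have h4 : ((2 * a.choose 2 : ℕ) : ℤ) = ((a * (a - 1) : ℕ) : ℤ) := by rw [h3]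
    push_cast [Nat.cast_sub ha] at h4
    exact h4

/-- The numerical contradiction. -/
lemma arith {d n K s z : ℕ} (hd : 0 < d) (hK : 3 ≤ K) (hs : s ≤ K) (hsz : s + z ≤ d)
    (hB : ∀ r, r ≤ K - s → 1 + z + s.choose 2 + (s - 1) * (d - s - z) + r * (z + 1 + d)
      ≤ n + r * n)
    (hC : K * d ≤ n * s) (hD : n < d + (K - 1).choose 2)
    (hE : n + 2 * (K - 1) ≤ 2 * d + 2 ∨ 2 * n + 2 ≤ 3 * d) : False := by
  have hs0 : s ≠ 0 := by
    rintro rfl
    rw [Nat.mul_zero] at hC
    have : 0 < K * d := Nat.mul_pos (by omega) hd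
    omega
  obtain ⟨e, he⟩ : ∃ e, d = s + z + e := ⟨d - (s + z), by omega⟩
  have hdse : d - s - z = e := by omega
  rw [hdse] at hB
  obtain ⟨s', rfl⟩ : ∃ s', s = s' + 1 := ⟨s - 1, by omega⟩
  simp only [Nat.add_sub_cancel] at hB
  obtain ⟨r, hr⟩ : ∃ r, K = s' + 1 + r := ⟨K - (s' + 1), by omega⟩
  have hKs : K - (s' + 1) = r := by omega
  have hK1 : K - 1 = s' + r := by omega
  rw [hKs] at hB
  rw [hK1] at hD
  have c1 := two_choose (s' + 1)
  have c2 := two_choose (s' + r)
  rcases Nat.eq_zero_or_pos r with rfl | hr0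
  · -- all labels are seen
    have h0 := hB 0 (le_refl 0)
    have c3 : (s' + 1).choose 2 = s'.choose 2 + s' := by
      rw [Nat.choose_succ_succ' s' 1]
      simp
      ring
    have h1 : s' * e ≥ e := Nat.le_mul_of_pos_left e (by omega)
    simp only [Nat.add_zero, Nat.zero_mul] at h0 hD
    omega
  · rcases hE with hE | hE
    · rw [hK1] at hE
      by_cases hcase : r + 2 ≤ s' + 1
      · have h1 := hB r le_rfl
        zify at h1 hD hE he hr hcase hr0 hd c1 c2
        have p1 : (0 : ℤ) ≤ (e : ℤ) * ((s' : ℤ) - 1 - r) := mul_nonneg (by positivity) (by linarith)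
        have p2 : (r : ℤ) * n ≤ (r : ℤ) * (2 * d + 2 - 2 * (s' + r)) :=
          mul_le_mul_of_nonneg_left (by linarith) (by positivity)
        have p3 : (0 : ℤ) ≤ (r : ℤ) * ((r : ℤ) - 1) := mul_nonneg (by positivity) (by linarith)
        have hz : (z : ℤ) = d - s' - 1 - e := by linarith
        rw [hz] at h1
        nlinarith
      · push Not at hcase
        -- few labels are seen
        by_cases hrs : s' + 1 ≤ r
        · have h1 : (s' + 1 + (s' + 1)) * d ≤ K * d := Nat.mul_le_mul_right d (by omega)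
          zify at h1 hC hE hrs
          have p2 : (n : ℤ) * (s' + 1) ≤ (2 * d + 2 - 2 * (s' + r)) * (s' + 1) :=
            mul_le_mul_of_nonneg_right (by linarith) (by positivity)
          have p3 : (3 : ℤ) ≤ s' + 1 + r := by
            have : 3 ≤ s' + 1 + r := by omega
            exact_mod_cast this
          nlinarith
        · have hr1 : r = s' := by omega
          subst hr1
          have hr2 : 1 ≤ r := hr0
          zify at hC hE hD c2 hr hr2 c1
          rw [hr] at hC
          have q0 : (n : ℤ) ≤ 2 * d + 2 - 4 * r := by linarith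
          have q1 : (n : ℤ) * (r + 1) ≤ (2 * d + 2 - 4 * r) * (r + 1) :=
            mul_le_mul_of_nonneg_right q0 (by positivity)
          have q2 : (2 * (n : ℤ) + 2) * (r + 1) ≤ (2 * d + (r + r) * (r + r - 1)) * (r + 1) :=
            mul_le_mul_of_nonneg_right (by linarith) (by positivity)
          -- d ≥ (r+1)(4r-2)
          have q3 : (d : ℤ) ≥ (r + 1) * (4 * r - 2) := by nlinarith
          have q4 : (r : ℤ) * d ≥ r * ((r + 1) * (4 * r - 2)) :=
            mul_le_mul_of_nonneg_left q3 (by positivity)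
          nlinarith
    · by_cases hs2 : s' + 1 ≤ 2
      · have h1 : n * (s' + 1) ≤ n * 2 := Nat.mul_le_mul_left n hs2
        have h2 : 3 * d ≤ K * d := Nat.mul_le_mul_right d hK
        omega
      · have h1 := hB 1 hr0
        zify at h1 hE he c1 hs2
        have hs3 : (2 : ℤ) ≤ s' := by
          have : 2 ≤ s' := by omega
          exact_mod_cast this
        have p1 : (0 : ℤ) ≤ (e : ℤ) * ((s' : ℤ) - 2) := mul_nonneg (by positivity) (by linarith)
        have hz : (z : ℤ) = d - s' - 1 - e := by linarith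
        rw [hz] at h1
        nlinarith

section

variable {V : Type*} {G : SimpleGraph V} {d : ℕ} (L : LocalData G d)
variable [Fintype V] [DecidableEq V] {M : Finset V} {K : ℕ} {lab : V → Fin K}

lemma seen_add_dz_le (v : V) : (seen L M lab v).card + (dz L M v).card ≤ d := by
  classical
  have hrep : ∀ a : seen L M lab v, ∃ i, L.nb v i ∉ M ∧ lab (L.nb v i) = a := fun a =>
    (mem_seen L).mp a.2
  choose rep hrep1 hrep2 using hrep
  have hinj : Function.Injective rep := by
    intro a b h
    apply Subtype.ext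
    rw [← hrep2 a, ← hrep2 b, h]
  have h1 : (Finset.univ.image rep).card = (seen L M lab v).card := by
    rw [Finset.card_image_of_injective _ hinj, Finset.card_univ, Fintype.card_coe]
  have h2 : Disjoint (Finset.univ.image rep) (dz L M v) := by
    rw [Finset.disjoint_left]
    intro i hi hi'
    obtain ⟨a, _, rfl⟩ := Finset.mem_image.mp hi
    exact hrep1 a ((mem_dz L).mp hi')
  rw [← h1, ← Finset.card_union_of_disjoint h2]
  calc _ ≤ (Finset.univ : Finset (Fin d)).card := Finset.card_le_card (Finset.subset_univ _)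
    _ = d := by simp

include L in
/-- The abstract upper bound. -/
theorem no_labelling (hd : 0 < d) (hconn : ∀ S C : Set V, S.ncard < d →
      (∀ x y, G.Adj x y → x ∉ S → y ∉ S → (x ∈ C ↔ y ∈ C)) →
      ∀ a b, a ∉ S → b ∉ S → (a ∈ C ↔ b ∈ C))
    (hlab : ∀ x y, G.Adj x y → x ∉ M → y ∉ M → lab x = lab y)
    (hsurj : ∀ a, ∃ x, x ∉ M ∧ lab x = a) (hK : 3 ≤ K)
    (hD : M.card < d + (K - 1).choose 2)
    (hE : M.card + 2 * (K - 1) ≤ 2 * d + 2 ∨ 2 * M.card + 2 ≤ 3 * d) : False := by
  classical
  have hM : M.Nonempty := by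
    rw [Finset.nonempty_iff_ne_empty]
    rintro rfl
    have := avg_count L hconn hlab hsurj (by omega) (s := 0) (by simp)
    simp only [Finset.card_empty, Nat.zero_mul, Nat.le_zero, Nat.mul_eq_zero] at this
    omega
  obtain ⟨v, hv, hmax⟩ := Finset.exists_max_image M (fun w => (seen L M lab w).card) hM
  have hsK : (seen L M lab v).card ≤ K := by
    calc _ ≤ (Finset.univ : Finset (Fin K)).card := Finset.card_le_card (Finset.subset_univ _)
      _ = K := by simp
  refine arith hd hK hsK (seen_add_dz_le L v) (fun r hr => ?_)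
    (avg_count L hconn hlab hsurj (by omega) hmax) hD hE
  -- choose `r` unseen labels
  have h1 : r ≤ (Finset.univ \ seen L M lab v).card := by
    rw [Finset.card_sdiff_of_subset (Finset.subset_univ _)]
    simpa using hr
  obtain ⟨U, hU, hUr⟩ := Finset.exists_subset_card_eq h1
  have hdis : Disjoint U (seen L M lab v) := by
    rw [Finset.disjoint_left]
    intro a ha ha'
    exact (Finset.mem_sdiff.mp (hU ha)).2 ha'
  have := max_count L hd hconn hlab hsurj (by omega) hv hmax U hdis
  rw [hUr] at this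
  exact this

end

end Pool.Agent.Helper26.PolySep
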