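import Mathlib
import Pool.Agent.Helper70.PolyUpper
import Pool.Agent.Helper26.PolySep.Bound

/-!
# Local coordinates of simple polytopes
-/

namespace Pool.Agent.Helper26.PolySep

open Set Pool.Agent.Helper70.Poly

variable {d : ℕ} {P : Set (Fin d → ℝ)}

lemma le_of_nb_le (hP : IsPoly P) {v : P.extremePoints ℝ} (φ : (Fin d → ℝ) →L[ℝ] ℝ)
    (h : ∀ w, (skel P).Adj v w → φ w.1 ≤ φ v.1) {y : Fin d → ℝ} (hy : y ∈ P) : φ y ≤ φ v.1 := by
  by_contra hlt
  push Not at hlt
  obtain ⟨w, hw, hwv, hext, hlt'⟩ := hP.improving v.2 φ hy hlt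
  have := h ⟨w, hw⟩ ⟨fun h' => hwv (congrArg Subtype.val h').symm, hext⟩
  exact absurd this (not_le.mpr hlt')

lemma extreme_ne {u v w : Fin d → ℝ} (hu : u ∈ P) (hv : v ∈ P) (hw : w ∈ P.extremePoints ℝ) {t : ℝ}
    (ht0 : 0 < t) (ht1 : t < 1) (huv : u ≠ v) (h : w - v = t • (u - v)) : False := by
  have h1 : w ∈ openSegment ℝ v u := by
    refine ⟨1 - t, t, by linarith, ht0, by ring, ?_⟩
    have : w = v + t • (u - v) := by rw [← h]; abel
    rw [this, smul_sub, sub_smul, one_smul]
    abel
  have h2 : v = w := hw.2 hv hu h1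
  rw [← h2, sub_self] at h
  rcases smul_eq_zero.mp h.symm with h3 | h3
  · linarith
  · exact huv (sub_eq_zero.mp h3)

/-- local coordinates at a vertex of a simple polytope -/
lemma exists_local (hP : IsSimplePolytope P) (v : P.extremePoints ℝ) :
    ∃ (nb : Fin d → P.extremePoints ℝ) (B : Module.Basis (Fin d) ℝ (Fin d → ℝ)),
      (∀ i, (skel P).Adj v (nb i)) ∧ (∀ x, (skel P).Adj v x → ∃ i, nb i = x) ∧
      (∀ i, B i = (nb i).1 - v.1) ∧ ∀ x ∈ P, ∀ i, 0 ≤ B.coord i (x - v.1) := by
  obtain ⟨hPoly, hspan, hsimple⟩ := hP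
  have hPo : IsPoly P := hPoly
  have hfin : Finite (P.extremePoints ℝ) := hPo.finite_extremePoints
  have hcard : Nat.card ((skel P).neighborSet v) = d := hsimple v
  have e : Fin d ≃ (skel P).neighborSet v := (Finite.equivFinOfCardEq hcard).symm
  set nb : Fin d → P.extremePoints ℝ := fun i => (e i).1 with hnb
  have hadj : ∀ i, (skel P).Adj v (nb i) := fun i => (e i).2
  have hsurj : ∀ x, (skel P).Adj v x → ∃ i, nb i = x := fun x hx =>
    ⟨e.symm ⟨x, hx⟩, by simp [hnb]⟩
  set b : Fin d → (Fin d → ℝ) := fun i => (nb i).1 - v.1 with hb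
  have hvP : v.1 ∈ P := extremePoints_subset v.2
  -- the edge directions span
  have htop : ⊤ ≤ Submodule.span ℝ (Set.range b) := by
    by_contra hne
    obtain ⟨y, hyP, hyU⟩ : ∃ y ∈ P, y - v.1 ∉ Submodule.span ℝ (Set.range b) := by
      by_contra hcon
      push Not at hcon
      apply hne
      have h1 : vectorSpan ℝ P = ⊤ := by
        rw [← direction_affineSpan, hspan]
        exact AffineSubspace.direction_top ℝ _ _
      rw [← h1, vectorSpan_eq_span_vsub_set_right ℝ hvP, Submodule.span_le]
      rintro _ ⟨y, hy, rfl⟩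
      exact hcon y hy
    obtain ⟨φ0, hφ0y, hφ0U⟩ := Submodule.exists_le_ker_of_notMem hyU
    set φ : (Fin d → ℝ) →L[ℝ] ℝ := LinearMap.toContinuousLinearMap φ0 with hφ
    have hzero : ∀ w, (skel P).Adj v w → φ w.1 = φ v.1 := by
      intro w hw
      obtain ⟨i, rfl⟩ := hsurj w hw
      have h1 : b i ∈ Submodule.span ℝ (Set.range b) := Submodule.subset_span ⟨i, rfl⟩
      have h2 : φ0 (b i) = 0 := hφ0U h1
      rw [hb, map_sub, sub_eq_zero] at h2
      exact h2
    have h1 : φ y ≤ φ v.1 := le_of_nb_le hPo φ (fun w hw => (hzero w hw).le) hyP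
    have h2 : (-φ) y ≤ (-φ) v.1 := le_of_nb_le hPo (-φ) (fun w hw => by
      simp [hzero w hw]) hyP
    have h3 : φ v.1 ≤ φ y := by simpa using h2
    apply hφ0y
    rw [map_sub, sub_eq_zero]
    exact le_antisymm h1 h3
  set B := basisOfTopLeSpanOfCardEqFinrank b htop (by simp) with hB
  have hBb : ∀ i, B i = b i := fun i => by rw [hB, coe_basisOfTopLeSpanOfCardEqFinrank]
  refine ⟨nb, B, hadj, hsurj, hBb, fun x hx i => ?_⟩
  set φ : (Fin d → ℝ) →L[ℝ] ℝ := LinearMap.toContinuousLinearMap (-(B.coord i)) with hφ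
  have h1 : φ x ≤ φ v.1 := by
    refine le_of_nb_le hPo φ (fun w hw => ?_) hx
    obtain ⟨j, rfl⟩ := hsurj w hw
    have h2 : φ ((nb j).1 - v.1) ≤ 0 := by
      have h3 : (nb j).1 - v.1 = B j := by rw [hBb]
      rw [h3]
      change -(B.coord i (B j)) ≤ 0
      rw [Module.Basis.coord_apply, Module.Basis.repr_self, Finsupp.single_apply]
      split_ifs <;> simp
    rw [map_sub] at h2
    linarith
  have h2 : -(B.coord i x) ≤ -(B.coord i v.1) := h1
  rw [map_sub]
  linarith

theorem exists_localData (hP : IsSimplePolytope P) : Nonempty (LocalData (skel P) d) := by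
  classical
  have hPo : IsPoly P := hP.1
  have hfin : Finite (P.extremePoints ℝ) := hPo.finite_extremePoints
  have : Fintype (P.extremePoints ℝ) := Fintype.ofFinite _
  choose nb B hadj hsurj hBnb hpos using exists_local hP
  have hPe : ∀ x : P.extremePoints ℝ, x.1 ∈ P := fun x => extremePoints_subset x.2
  have hcoord : ∀ v i j, (B v).coord i ((nb v j).1 - v.1) = if j = i then 1 else 0 := by
    intro v i j
    rw [← hBnb, Module.Basis.coord_apply, Module.Basis.repr_self, Finsupp.single_apply]
  have hexp : ∀ (v w : P.extremePoints ℝ), w.1 - v.1 =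
      ∑ i, ((B v).coord i (w.1 - v.1)) • ((nb v i).1 - v.1) := by
    intro v w
    conv_lhs => rw [← (B v).sum_repr (w.1 - v.1)]
    refine Finset.sum_congr rfl fun i _ => ?_
    rw [hBnb, Module.Basis.coord_apply]
  refine ⟨{ nb := nb
            supp := fun v w => Finset.univ.filter fun i => (B v).coord i (w.1 - v.1) ≠ 0
            adj_nb := hadj
            nb_surj := hsurj
            supp_self := ?_
            supp_nb := ?_
            eq_self := ?_
            eq_nb := ?_
            face := ?_ }⟩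
  · intro v
    ext i
    simp
  · intro v i
    ext j
    simp only [Finset.mem_filter, Finset.mem_univ, true_and, Finset.mem_singleton]
    rw [hcoord]
    constructor
    · intro h
      by_contra hne
      exact h (if_neg fun h' => hne h'.symm)
    · rintro rfl
      simp
  · intro v w h
    have h1 : ∀ i, (B v).coord i (w.1 - v.1) = 0 := by
      intro i
      by_contra hne
      have : i ∈ (∅ : Finset (Fin d)) := by
        rw [← h]
        exact Finset.mem_filter.mpr ⟨Finset.mem_univ _, hne⟩
      simp at this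
    have h2 := hexp v w
    simp only [h1, zero_smul, Finset.sum_const_zero] at h2
    exact Subtype.ext (sub_eq_zero.mp h2)
  · intro v w i h
    set t := (B v).coord i (w.1 - v.1) with ht
    have h1 : ∀ j, j ≠ i → (B v).coord j (w.1 - v.1) = 0 := by
      intro j hj
      by_contra hne
      have : j ∈ ({i} : Finset (Fin d)) := by
        rw [← h]
        exact Finset.mem_filter.mpr ⟨Finset.mem_univ _, hne⟩
      exact hj (Finset.mem_singleton.mp this)
    have hti : t ≠ 0 := by
      have : i ∈ ({i} : Finset (Fin d)) := Finset.mem_singleton_self i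
      rw [← h] at this
      exact (Finset.mem_filter.mp this).2
    have ht0 : 0 < t := lt_of_le_of_ne (hpos v _ (hPe w) i) (Ne.symm hti)
    have h2 : w.1 - v.1 = t • ((nb v i).1 - v.1) := by
      rw [hexp v w, Finset.sum_eq_single i]
      · intro j _ hj
        rw [h1 j hj, zero_smul]
      · intro h'
        exact absurd (Finset.mem_univ i) h'
    have hne : (nb v i).1 ≠ v.1 := fun h' => (hadj v i).1 (Subtype.ext h').symm
    rcases lt_trichotomy t 1 with hlt | heq | hgt
    · exact (extreme_ne (hPe _) (hPe _) w.2 ht0 hlt hne h2).elim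
    · rw [heq, one_smul] at h2
      exact Subtype.ext (sub_left_inj.mp h2)
    · exfalso
      have h3 : (nb v i).1 - v.1 = t⁻¹ • (w.1 - v.1) := by
        rw [h2, smul_smul, inv_mul_cancel₀ hti, one_smul]
      have hwv : w.1 ≠ v.1 := by
        intro h'
        rw [h', sub_self] at h3
        rw [smul_zero] at h3
        exact hne (sub_eq_zero.mp h3)
      exact extreme_ne (hPe w) (hPe v) (nb v i).2 (inv_pos.mpr ht0) (inv_lt_one_of_one_lt₀ hgt)
        hwv h3
  · intro v i j hij C hC
    -- a functional that is positive (relative to `v`) exactly on the 2-face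
    set co : Fin d → P.extremePoints ℝ → ℝ := fun l x => (B v).coord l (x.1 - v.1) with hco
    have hco0 : ∀ l x, 0 ≤ co l x := fun l x => hpos v _ (hPe x) l
    set W : ℝ := ∑ x : P.extremePoints ℝ, ∑ l : Fin d, (co i x + co j x) / co l x with hW
    have hWge : ∀ x l, (co i x + co j x) / co l x ≤ W := by
      intro x l
      calc (co i x + co j x) / co l x ≤ ∑ l : Fin d, (co i x + co j x) / co l x :=
            Finset.single_le_sum (f := fun l => (co i x + co j x) / co l x)
              (fun l _ => div_nonneg (add_nonneg (hco0 _ _) (hco0 _ _)) (hco0 _ _))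
              (Finset.mem_univ l)
        _ ≤ W := Finset.single_le_sum
            (f := fun x => ∑ l : Fin d, (co i x + co j x) / co l x)
            (fun x _ => Finset.sum_nonneg fun l _ =>
              div_nonneg (add_nonneg (hco0 _ _) (hco0 _ _)) (hco0 _ _)) (Finset.mem_univ x)
    have hW0 : 0 ≤ W := Finset.sum_nonneg fun x _ => Finset.sum_nonneg fun l _ =>
      div_nonneg (add_nonneg (hco0 _ _) (hco0 _ _)) (hco0 _ _)
    set φ : (Fin d → ℝ) →L[ℝ] ℝ := LinearMap.toContinuousLinearMap
      ((B v).coord i + (B v).coord j -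
        W • ∑ l ∈ Finset.univ.filter (fun l => l ≠ i ∧ l ≠ j), (B v).coord l) with hφ
    have hφx : ∀ x : P.extremePoints ℝ, φ x.1 - φ v.1 = co i x + co j x -
        W * ∑ l ∈ Finset.univ.filter (fun l => l ≠ i ∧ l ≠ j), co l x := by
      intro x
      rw [← map_sub]
      simp only [hφ, LinearMap.coe_toContinuousLinearMap', LinearMap.sub_apply,
        LinearMap.add_apply, LinearMap.smul_apply, LinearMap.sum_apply, smul_eq_mul, hco]
    have hsupp : ∀ x : P.extremePoints ℝ, φ v.1 < φ x.1 →
        x ≠ v ∧ (Finset.univ.filter fun i => (B v).coord i (x.1 - v.1) ≠ 0) ⊆ {i, j} := by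
      intro x hx
      refine ⟨fun h => by rw [h] at hx; exact lt_irrefl _ hx, ?_⟩
      intro l hl
      by_contra hlij
      simp only [Finset.mem_insert, Finset.mem_singleton, not_or] at hlij
      have hl0 : co l x ≠ 0 := (Finset.mem_filter.mp hl).2
      have hlpos : 0 < co l x := lt_of_le_of_ne (hco0 l x) (Ne.symm hl0)
      have h1 : co i x + co j x ≤ W * co l x := by
        have := hWge x l
        rwa [div_le_iff₀ hlpos] at this
      have h2 : co l x ≤ ∑ l ∈ Finset.univ.filter (fun l => l ≠ i ∧ l ≠ j), co l x :=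
        Finset.single_le_sum (f := fun l => co l x) (fun l _ => hco0 l x)
          (Finset.mem_filter.mpr ⟨Finset.mem_univ l, hlij⟩)
      have h3 := mul_le_mul_of_nonneg_left h2 hW0
      have h4 := hφx x
      linarith
    have hnbi : φ v.1 < φ (nb v i).1 := by
      have h4 := hφx (nb v i)
      have h5 : ∑ l ∈ Finset.univ.filter (fun l => l ≠ i ∧ l ≠ j), co l (nb v i) = 0 := by
        refine Finset.sum_eq_zero fun l hl => ?_
        have := (Finset.mem_filter.mp hl).2
        simp only [hco]
        rw [hcoord, if_neg (Ne.symm this.1)]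
      have h6 : co i (nb v i) = 1 := by
        simp only [hco]
        rw [hcoord, if_pos rfl]
      have h7 : co j (nb v i) = 0 := by
        simp only [hco]
        rw [hcoord, if_neg hij]
      rw [h5, h6, h7] at h4
      linarith
    have hnbj : φ v.1 < φ (nb v j).1 := by
      have h4 := hφx (nb v j)
      have h5 : ∑ l ∈ Finset.univ.filter (fun l => l ≠ i ∧ l ≠ j), co l (nb v j) = 0 := by
        refine Finset.sum_eq_zero fun l hl => ?_
        have := (Finset.mem_filter.mp hl).2
        simp only [hco]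
        rw [hcoord, if_neg (Ne.symm this.2)]
      have h6 : co j (nb v j) = 1 := by
        simp only [hco]
        rw [hcoord, if_pos rfl]
      have h7 : co i (nb v j) = 0 := by
        simp only [hco]
        rw [hcoord, if_neg (Ne.symm hij)]
      rw [h5, h6, h7] at h4
      linarith
    refine upper_connected hPo φ (φ v.1) {x | φ x.1 ≤ φ v.1} C (fun x hx => hx) ?_ (hPe (nb v i))
      hnbi (nb v i) (nb v j) (not_le.mpr hnbi) (not_le.mpr hnbj) hnbi.le hnbj.le
    intro x y hxy hx hy
    have hx' := hsupp x (not_le.mp hx)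
    have hy' := hsupp y (not_le.mp hy)
    exact hC x y hxy hx'.1 hy'.1 hx'.2 hy'.2

/-- connectivity hypothesis -/
lemma connected_of_simple (hP : IsSimplePolytope P) : ∀ S C : Set (P.extremePoints ℝ),
    S.ncard < d → (∀ x y, (skel P).Adj x y → x ∉ S → y ∉ S → (x ∈ C ↔ y ∈ C)) →
      ∀ a b, a ∉ S → b ∉ S → (a ∈ C ↔ b ∈ C) := by
  intro S C hS hC a b ha hb
  have hdim : Module.finrank ℝ (vectorSpan ℝ P) = d := by
    have h1 : vectorSpan ℝ P = ⊤ := by
      rw [← direction_affineSpan, hP.2.1]
      exact AffineSubspace.direction_top ℝ _ _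
    rw [h1, finrank_top]
    simp
  exact balinski hP.1 S C (by rw [hdim]; exact hS) hC a b ha hb

/-- Upper bound for simple polytopes. -/
theorem sepCards_lt {n d k K : ℕ} (hd : 0 < d) (hK : 3 ≤ K) (hD : n < d + (K - 1).choose 2)
    (hE : n + 2 * (K - 1) ≤ 2 * d + 2 ∨ 2 * n + 2 ≤ 3 * d) (hk : k ∈ sepCards n d) : k < K := by
  classical
  obtain ⟨P, hP, M, N, hM, hN, hsep⟩ := hk
  have hPo : IsPoly P := hP.1
  have hfin : Finite (P.extremePoints ℝ) := hPo.finite_extremePoints
  have : Fintype (P.extremePoints ℝ) := Fintype.ofFinite _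
  obtain ⟨L⟩ := exists_localData hP
  by_contra hlt
  push Not at hlt
  rw [← hN] at hlt
  -- `K` distinct nodes of `N`
  obtain ⟨N', hN', hN'card⟩ := Finset.exists_subset_card_eq hlt
  have e : Fin K ≃ N' := (Fintype.equivFinOfCardEq (by rw [Fintype.card_coe, hN'card])).symm
  have hNM : ∀ a : N', a.1 ∉ M := fun a haM => (Finset.disjoint_left.mp hsep.1) haM (hN' a.2)
  have hK0 : 0 < K := by omega
  -- labels
  let H := delVerts (skel P) (M : Set (P.extremePoints ℝ))
  let lab : P.extremePoints ℝ → Fin K := fun x =>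
    if h : ∃ a : Fin K, H.Reachable (e a).1 x then h.choose else ⟨0, hK0⟩
  have hlab_eq : ∀ x (a : Fin K), H.Reachable (e a).1 x → lab x = a := by
    intro x a ha
    have h : ∃ a : Fin K, H.Reachable (e a).1 x := ⟨a, ha⟩
    have h1 : lab x = h.choose := dif_pos h
    rw [h1]
    by_contra hne
    have h2 : (e h.choose).1 ≠ (e a).1 := fun h' => hne (e.injective (Subtype.ext h'))
    exact hsep.not_reachable (hN' (e h.choose).2) (hN' (e a).2) h2
      (h.choose_spec.trans ha.symm)
  refine no_labelling L (M := M) (lab := lab) hd (connected_of_simple hP) ?_ ?_ hK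
    (by rw [hM]; exact hD) (by rw [hM]; exact hE)
  · intro x y hxy hx hy
    have hadj : H.Adj x y := ⟨hxy, by simpa using hx, by simpa using hy⟩
    by_cases h : ∃ a : Fin K, H.Reachable (e a).1 x
    · obtain ⟨a, ha⟩ := h
      rw [hlab_eq x a ha, hlab_eq y a (ha.trans hadj.reachable)]
    · have h' : ¬ ∃ a : Fin K, H.Reachable (e a).1 y := by
        rintro ⟨a, ha⟩
        exact h ⟨a, ha.trans hadj.symm.reachable⟩
      simp only [lab]
      rw [dif_neg h, dif_neg h']
  · intro a
    exact ⟨(e a).1, hNM _, hlab_eq _ a (SimpleGraph.Reachable.refl _)⟩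

end Pool.Agent.Helper26.PolySep
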