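import Mathlib
import Pool.Agent.Helper70.PolyUpper

/-!
# Combinatorial descriptions of simple polytopes

A copy of `Pool.Agent.Helper70.SimpleData` without the 2-colouring.

`Cert d` packages a list of points `p w` (the vertices), valid linear inequalities
`a i x ≤ b i`, the sets `T w` of inequalities tight at `p w`.
-/

open Set Pool.Agent.Helper70.Poly

namespace Pool.Agent.Helper26.PolySep

/-- A combinatorial certificate for a simple `d`-polytope . -/
structure Cert (d : ℕ) where
  /-- index type of the inequalities -/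
  ι : Type
  /-- index type of the vertices -/
  W : Type
  finW : Finite W
  ne : Nonempty W
  /-- linear functionals -/
  a : ι → (Fin d → ℝ) →ₗ[ℝ] ℝ
  /-- right hand sides -/
  b : ι → ℝ
  /-- vertices -/
  p : W → (Fin d → ℝ)
  /-- tight inequalities -/
  T : W → Finset ι
  pinj : Function.Injective p
  le : ∀ w i, a i (p w) ≤ b i
  tight : ∀ w i, a i (p w) = b i ↔ i ∈ T w
  card : ∀ w, (T w).card = d
  inj : ∀ w x, (∀ i ∈ T w, a i x = 0) → x = 0
  nbr : ∀ w, ∀ i ∈ T w, ∃ w', w' ≠ w ∧ ∀ j ∈ T w, j ≠ i → j ∈ T w'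

namespace Cert

variable {d : ℕ} (D : Cert d)

/-- The polytope. -/
def P : Set (Fin d → ℝ) := convexHull ℝ (range D.p)

lemma isPoly : IsPoly D.P :=
  ⟨range D.p, by have := D.finW; exact Set.finite_range _, rfl⟩

lemma p_mem (w : D.W) : D.p w ∈ D.P := subset_convexHull ℝ _ (mem_range_self w)

lemma valid {x : Fin d → ℝ} (hx : x ∈ D.P) (i : D.ι) : D.a i x ≤ D.b i := by
  have : D.P ⊆ {x | D.a i x ≤ D.b i} := by
    refine convexHull_min ?_ (convex_halfSpace_le (D.a i).isLinear _)
    rintro _ ⟨w, rfl⟩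
    exact D.le w i
  exact this hx

lemma eq_of_tight {w : D.W} {x : Fin d → ℝ} (h : ∀ i ∈ D.T w, D.a i x = D.b i) : x = D.p w := by
  have : x - D.p w = 0 := D.inj w _ fun i hi => by
    rw [map_sub, h i hi, (D.tight w i).mpr hi, sub_self]
  exact sub_eq_zero.mp this

lemma eq_of_subset {w w' : D.W} (h : ∀ i ∈ D.T w, i ∈ D.T w') : w' = w :=
  D.pinj (D.eq_of_tight fun i hi => (D.tight w' i).mpr (h i hi))

lemma p_extreme (w : D.W) : D.p w ∈ D.P.extremePoints ℝ := by
  refine ⟨D.p_mem w, fun x1 hx1 x2 hx2 h => ?_⟩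
  obtain ⟨α, β, hα, hβ, hαβ, hw⟩ := h
  refine D.eq_of_tight fun i hi => ?_
  have h1 := D.valid hx1 i
  have h2 := D.valid hx2 i
  have h3 : α * D.a i x1 + β * D.a i x2 = D.b i := by
    rw [← (D.tight w i).mpr hi, ← hw, map_add, map_smul, map_smul]
    rfl
  refine le_antisymm h1 ?_
  by_contra hlt
  push Not at hlt
  have e1 : α * D.a i x1 < α * D.b i := mul_lt_mul_of_pos_left hlt hα
  have e2 : β * D.a i x2 ≤ β * D.b i := mul_le_mul_of_nonneg_left h2 hβ.le
  have e3 : α * D.b i + β * D.b i = D.b i := by rw [← add_mul, hαβ, one_mul]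
  linarith

lemma extremePoints_eq : D.P.extremePoints ℝ = range D.p := by
  refine Subset.antisymm extremePoints_convexHull_subset ?_
  rintro _ ⟨w, rfl⟩
  exact D.p_extreme w

/-- A chosen neighbour across the inequality `i`. -/
noncomputable def nb (w : D.W) (i : D.T w) : D.W := (D.nbr w i.1 i.2).choose

lemma nb_ne (w : D.W) (i : D.T w) : D.nb w i ≠ w := (D.nbr w i.1 i.2).choose_spec.1

lemma nb_mem (w : D.W) (i : D.T w) {j : D.ι} (hj : j ∈ D.T w) (hji : j ≠ i.1) :
    j ∈ D.T (D.nb w i) := (D.nbr w i.1 i.2).choose_spec.2 j hj hji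

lemma nb_notMem (w : D.W) (i : D.T w) : i.1 ∉ D.T (D.nb w i) := by
  intro h
  apply D.nb_ne w i
  apply D.eq_of_subset
  intro j hj
  by_cases hji : j = i.1
  · rw [hji]
    exact h
  · exact D.nb_mem w i hj hji

lemma slack_nb_pos (w : D.W) (i : D.T w) : 0 < D.b i.1 - D.a i.1 (D.p (D.nb w i)) := by
  have h1 := D.le (D.nb w i) i.1
  have h2 : D.a i.1 (D.p (D.nb w i)) ≠ D.b i.1 := fun h =>
    D.nb_notMem w i ((D.tight _ _).mp h)
  have := lt_of_le_of_ne h1 h2
  linarith

/-- Decomposition of any vector in the edge directions at `p w`. -/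
lemma decomp (w : D.W) (x : Fin d → ℝ) :
    x - D.p w = ∑ i : D.T w, ((D.b i.1 - D.a i.1 x) / (D.b i.1 - D.a i.1 (D.p (D.nb w i)))) •
      (D.p (D.nb w i) - D.p w) := by
  rw [← sub_eq_zero]
  refine D.inj w _ fun j hj => ?_
  rw [map_sub, map_sub, (D.tight w j).mpr hj, map_sum, Finset.sum_eq_single ⟨j, hj⟩]
  · rw [map_smul, map_sub, (D.tight w j).mpr hj, smul_eq_mul]
    have := (D.slack_nb_pos w ⟨j, hj⟩).ne'
    simp only at this ⊢
    field_simp
    ring
  · intro i _ hi
    have hji : j ≠ i.1 := fun h => hi (Subtype.ext h.symm)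
    rw [map_smul, map_sub, (D.tight w j).mpr hj, (D.tight _ j).mpr (D.nb_mem w i hj hji), sub_self,
      smul_zero]
  · intro h
    exact absurd (Finset.mem_univ _) h

/-- Combinatorial adjacency. -/
def Adj (w w' : D.W) : Prop := w ≠ w' ∧ ∃ i ∈ D.T w, ∀ j ∈ D.T w, j ≠ i → j ∈ D.T w'

lemma edge_of_adj {w w' : D.W} (h : D.Adj w w') :
    IsExtreme ℝ D.P (segment ℝ (D.p w) (D.p w')) := by
  obtain ⟨hne, i, hi, hT⟩ := h
  have hiw' : i ∉ D.T w' := fun hiw' => hne (by
    symm
    apply D.eq_of_subset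
    intro j hj
    by_cases hji : j = i
    · rw [hji]; exact hiw'
    · exact hT j hj hji)
  have hslack : 0 < D.b i - D.a i (D.p w') := by
    have h1 := D.le w' i
    have h2 : D.a i (D.p w') ≠ D.b i := fun h => hiw' ((D.tight _ _).mp h)
    have := lt_of_le_of_ne h1 h2
    linarith
  refine ⟨D.isPoly.convex.segment_subset (D.p_mem w) (D.p_mem w'), ?_⟩
  intro x1 hx1 x2 hx2 z hz hz12
  have hzt : ∀ j ∈ D.T w, j ≠ i → D.a j z = D.b j := by
    intro j hj hji
    obtain ⟨α, β, _, _, hαβ, rfl⟩ := hz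
    rw [map_add, map_smul, map_smul, (D.tight w j).mpr hj, (D.tight w' j).mpr (hT j hj hji),
      ← add_smul, hαβ, one_smul]
  have hx1t : ∀ j ∈ D.T w, j ≠ i → D.a j x1 = D.b j := by
    intro j hj hji
    obtain ⟨α, β, hα, hβ, hαβ, hz'⟩ := hz12
    have h1 := D.valid hx1 j
    have h2 := D.valid hx2 j
    have h3 : α * D.a j x1 + β * D.a j x2 = D.b j := by
      rw [← hzt j hj hji, ← hz', map_add, map_smul, map_smul]
      rfl
    refine le_antisymm h1 ?_
    by_contra hlt
    push Not at hlt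
    have e1 : α * D.a j x1 < α * D.b j := mul_lt_mul_of_pos_left hlt hα
    have e2 : β * D.a j x2 ≤ β * D.b j := mul_le_mul_of_nonneg_left h2 hβ.le
    have e3 : α * D.b j + β * D.b j = D.b j := by rw [← add_mul, hαβ, one_mul]
    linarith
  set t : ℝ := (D.b i - D.a i x1) / (D.b i - D.a i (D.p w')) with ht
  have hx1eq : x1 = D.p w + t • (D.p w' - D.p w) := by
    have : x1 - (D.p w + t • (D.p w' - D.p w)) = 0 := by
      refine D.inj w _ fun j hj => ?_
      by_cases hji : j = i
      · subst hji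
        rw [map_sub, map_add, map_smul, map_sub, (D.tight w j).mpr hj, smul_eq_mul, ht]
        field_simp
        ring
      · rw [map_sub, map_add, map_smul, map_sub, (D.tight w j).mpr hj,
          (D.tight w' j).mpr (hT j hj hji), hx1t j hj hji]
        simp
    exact sub_eq_zero.mp this
  have ht0 : 0 ≤ t := div_nonneg (by linarith [D.valid hx1 i]) hslack.le
  have ht1 : t ≤ 1 := by
    by_contra hgt
    push Not at hgt
    have hmem : D.p w' ∈ openSegment ℝ (D.p w) x1 := by
      refine ⟨1 - 1 / t, 1 / t, ?_, by positivity, by ring, ?_⟩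
      · rw [sub_pos, div_lt_one (by linarith)]
        exact hgt
      · rw [hx1eq, smul_add, smul_smul, one_div, inv_mul_cancel₀ (by linarith), one_smul]
        module
    exact hne (D.pinj ((D.p_extreme w').2 (D.p_mem w) hx1 hmem))
  rw [hx1eq, segment_eq_image']
  exact ⟨t, ⟨ht0, ht1⟩, rfl⟩

lemma adj_of_edge {w w' : D.W} (hne : w ≠ w')
    (h : IsExtreme ℝ D.P (segment ℝ (D.p w) (D.p w'))) : D.Adj w w' := by
  classical
  refine ⟨hne, ?_⟩
  by_contra hcon
  push Not at hcon
  -- two indices of `T w` missing from `T w'`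
  obtain ⟨i1, hi1, hi1'⟩ : ∃ i ∈ D.T w, i ∉ D.T w' := by
    by_contra hall
    push Not at hall
    exact hne (D.eq_of_subset hall).symm
  obtain ⟨i2, hi2, hne12, hi2'⟩ := hcon i1 hi1
  set c : D.T w → ℝ := fun i =>
    (D.b i.1 - D.a i.1 (D.p w')) / (D.b i.1 - D.a i.1 (D.p (D.nb w i))) with hc
  have hc0 : ∀ i, 0 ≤ c i := fun i =>
    div_nonneg (by linarith [D.le w' i.1]) (D.slack_nb_pos w i).le
  have hdec : D.p w' - D.p w = ∑ i : D.T w, c i • (D.p (D.nb w i) - D.p w) := D.decomp w (D.p w')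
  set sc : ℝ := ∑ i, c i with hsc
  have hsc0 : 0 ≤ sc := Finset.sum_nonneg fun i _ => hc0 i
  set ε : ℝ := 1 / (2 * (1 + sc)) with hε
  have hε0 : 0 < ε := by positivity
  have hes : 2 * ε * sc ≤ 1 := by
    rw [hε]
    have : 2 * (1 / (2 * (1 + sc))) * sc = sc / (1 + sc) := by
      field_simp
    rw [this, div_le_one (by linarith)]
    linarith
  -- points of the form p w + sum lam_i (p w_i - p w)
  have hin : ∀ lam : D.T w → ℝ, (∀ i, 0 ≤ lam i) → ∑ i, lam i ≤ 1 →
      D.p w + ∑ i, lam i • (D.p (D.nb w i) - D.p w) ∈ D.P := by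
    intro lam hlam hsum
    have e : D.p w + ∑ i, lam i • (D.p (D.nb w i) - D.p w) =
        (1 - ∑ i, lam i) • D.p w + ∑ i, lam i • D.p (D.nb w i) := by
      simp only [smul_sub, Finset.sum_sub_distrib, ← Finset.sum_smul]
      module
    rw [e]
    rcases hsum.eq_or_lt with h1 | h1
    · rw [h1, sub_self, zero_smul, zero_add]
      exact D.isPoly.convex.sum_mem (fun i _ => hlam i) h1 fun i _ => D.p_mem _
    · by_cases h0 : ∑ i, lam i = 0
      · have : ∀ i, lam i = 0 := fun i =>
          (Finset.sum_eq_zero_iff_of_nonneg (fun i _ => hlam i)).mp h0 i (Finset.mem_univ i)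
        simp only [this, zero_smul, Finset.sum_const_zero, sub_zero, one_smul, add_zero]
        exact D.p_mem w
      · have hpos : 0 < ∑ i, lam i :=
          lt_of_le_of_ne (Finset.sum_nonneg fun i _ => hlam i) (Ne.symm h0)
        have e2 : ∑ i, lam i • D.p (D.nb w i) =
            (∑ i, lam i) • ∑ i, (lam i / ∑ j, lam j) • D.p (D.nb w i) := by
          rw [Finset.smul_sum]
          refine Finset.sum_congr rfl fun i _ => ?_
          rw [smul_smul, mul_div_cancel₀ _ h0]
        rw [e2]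
        refine D.isPoly.convex (D.p_mem w) ?_ (by linarith) hpos.le (by ring)
        refine D.isPoly.convex.sum_mem (fun i _ => div_nonneg (hlam i) hpos.le) ?_
          fun i _ => D.p_mem _
        rw [← Finset.sum_div, div_self h0]
  set x1 : Fin d → ℝ := D.p w +
    ∑ i, (if i = ⟨i1, hi1⟩ then 2 * ε * c i else 0) • (D.p (D.nb w i) - D.p w) with hx1
  set x2 : Fin d → ℝ := D.p w +
    ∑ i, (if i = ⟨i1, hi1⟩ then 0 else 2 * ε * c i) • (D.p (D.nb w i) - D.p w) with hx2
  have hx1P : x1 ∈ D.P := by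
    refine hin _ (fun i => ?_) ?_
    · split_ifs
      · have := hc0 i
        positivity
      · exact le_rfl
    · refine le_trans (Finset.sum_le_sum (g := fun i => 2 * ε * c i) fun i _ => ?_) ?_
      · split_ifs
        · exact le_rfl
        · have := hc0 i
          positivity
      · rw [← Finset.mul_sum]
        exact hes
  have hx2P : x2 ∈ D.P := by
    refine hin _ (fun i => ?_) ?_
    · split_ifs
      · exact le_rfl
      · have := hc0 i
        positivity
    · refine le_trans (Finset.sum_le_sum (g := fun i => 2 * ε * c i) fun i _ => ?_) ?_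
      · split_ifs
        · have := hc0 i
          positivity
        · exact le_rfl
      · rw [← Finset.mul_sum]
        exact hes
  have hmid : (1 / 2 : ℝ) • x1 + (1 / 2 : ℝ) • x2 = D.p w + ε • (D.p w' - D.p w) := by
    rw [hdec, hx1, hx2, Finset.smul_sum]
    have e : ∀ i : D.T w, ε • c i • (D.p (D.nb w i) - D.p w) =
        (1 / 2 : ℝ) • ((if i = ⟨i1, hi1⟩ then 2 * ε * c i else 0) • (D.p (D.nb w i) - D.p w)) +
        (1 / 2 : ℝ) • ((if i = ⟨i1, hi1⟩ then 0 else 2 * ε * c i) • (D.p (D.nb w i) - D.p w)) := by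
      intro i
      split_ifs <;> module
    simp_rw [e]
    rw [Finset.sum_add_distrib, ← Finset.smul_sum, ← Finset.smul_sum]
    module
  have hzmem : D.p w + ε • (D.p w' - D.p w) ∈ segment ℝ (D.p w) (D.p w') := by
    rw [segment_eq_image']
    refine ⟨ε, ⟨hε0.le, ?_⟩, rfl⟩
    rw [hε, div_le_one (by positivity)]
    linarith
  have hx1seg : x1 ∈ segment ℝ (D.p w) (D.p w') :=
    h.left_mem_of_mem_openSegment hx1P hx2P hzmem
      ⟨1 / 2, 1 / 2, by norm_num, by norm_num, by norm_num, hmid⟩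
  have hx1' : x1 = D.p w + (2 * ε * c ⟨i1, hi1⟩) • (D.p (D.nb w ⟨i1, hi1⟩) - D.p w) := by
    rw [hx1, Finset.sum_eq_single ⟨i1, hi1⟩]
    · rw [if_pos rfl]
    · intro i _ hi
      rw [if_neg hi, zero_smul]
    · intro h'
      exact absurd (Finset.mem_univ _) h'
  have hc1 : 0 < c ⟨i1, hi1⟩ := by
    refine div_pos ?_ (D.slack_nb_pos w ⟨i1, hi1⟩)
    have h1 := D.le w' i1
    have h2 : D.a i1 (D.p w') ≠ D.b i1 := fun h => hi1' ((D.tight _ _).mp h)
    have := lt_of_le_of_ne h1 h2
    simp only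
    linarith
  rw [segment_eq_image'] at hx1seg
  obtain ⟨θ, _, hθ⟩ := hx1seg
  simp only at hθ
  have h2 : D.a i2 x1 = D.b i2 := by
    rw [hx1', map_add, map_smul, map_sub, (D.tight w i2).mpr hi2,
      (D.tight _ i2).mpr (D.nb_mem w ⟨i1, hi1⟩ hi2 hne12), sub_self, smul_zero, add_zero]
  have h3 : D.a i2 x1 = D.b i2 + θ * (D.a i2 (D.p w') - D.b i2) := by
    rw [← hθ, map_add, map_smul, map_sub, (D.tight w i2).mpr hi2, smul_eq_mul]
  have h4 : D.a i2 (D.p w') - D.b i2 ≠ 0 := fun h => hi2' ((D.tight _ _).mp (sub_eq_zero.mp h))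
  have h5 : θ = 0 := by
    have : θ * (D.a i2 (D.p w') - D.b i2) = 0 := by linarith
    exact (mul_eq_zero.mp this).resolve_right h4
  have h6 : x1 = D.p w := by
    rw [← hθ, h5, zero_smul, add_zero]
  have h7 : D.a i1 x1 < D.b i1 := by
    rw [hx1', map_add, map_smul, map_sub, (D.tight w i1).mpr hi1, smul_eq_mul]
    have h8 := D.slack_nb_pos w ⟨i1, hi1⟩
    simp only at h8
    have h9 : 0 < 2 * ε * c ⟨i1, hi1⟩ := by positivity
    nlinarith
  rw [h6, (D.tight w i1).mpr hi1] at h7
  exact lt_irrefl _ h7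

/-- Two vertices seen from `p w` across the same inequality coincide. -/
lemma eq_nb {w w' : D.W} (hne : w' ≠ w) (i : D.T w) (h : ∀ j ∈ D.T w, j ≠ i.1 → j ∈ D.T w') :
    w' = D.nb w i := by
  classical
  have hi' : i.1 ∉ D.T w' := fun hi' => hne (D.eq_of_subset (w := w) fun j hj => by
    by_cases hji : j = i.1
    · rw [hji]; exact hi'
    · exact h j hj hji)
  have hs : 0 < D.b i.1 - D.a i.1 (D.p w') := by
    have h1 := D.le w' i.1
    have h2 : D.a i.1 (D.p w') ≠ D.b i.1 := fun h => hi' ((D.tight _ _).mp h)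
    have := lt_of_le_of_ne h1 h2
    linarith
  have hs2 := D.slack_nb_pos w i
  set t : ℝ := (D.b i.1 - D.a i.1 (D.p w')) / (D.b i.1 - D.a i.1 (D.p (D.nb w i))) with ht
  have ht0 : 0 < t := div_pos hs hs2
  have heq : D.p w' - D.p w = t • (D.p (D.nb w i) - D.p w) := by
    rw [D.decomp w (D.p w'), Finset.sum_eq_single i]
    · intro j _ hj
      have hji : j.1 ≠ i.1 := fun h => hj (Subtype.ext h)
      rw [(D.tight w' j.1).mpr (h j.1 j.2 hji), sub_self, zero_div, zero_smul]
    · intro h'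
      exact absurd (Finset.mem_univ _) h'
  have heq1 : D.p w' = D.p w + t • (D.p (D.nb w i) - D.p w) := by
    rw [← heq]; abel
  rcases lt_trichotomy t 1 with h1 | h1 | h1
  · exfalso
    have hmem : D.p w' ∈ openSegment ℝ (D.p w) (D.p (D.nb w i)) := by
      refine ⟨1 - t, t, by linarith, ht0, by ring, ?_⟩
      rw [heq1]
      module
    exact hne (D.pinj ((D.p_extreme w').2 (D.p_mem w) (D.p_mem _) hmem)).symm
  · rw [h1, one_smul] at heq1
    apply D.pinj
    rw [heq1]
    abel
  · exfalso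
    have hmem : D.p (D.nb w i) ∈ openSegment ℝ (D.p w) (D.p w') := by
      refine ⟨1 - 1 / t, 1 / t, ?_, by positivity, by ring, ?_⟩
      · rw [sub_pos, div_lt_one ht0]
        exact h1
      · rw [heq1, smul_add, smul_smul, one_div, inv_mul_cancel₀ ht0.ne', one_smul]
        module
    exact D.nb_ne w i (D.pinj ((D.p_extreme _).2 (D.p_mem w) (D.p_mem _) hmem)).symm

/-- The vertex of the polytope with index `w`. -/
def vert (w : D.W) : D.P.extremePoints ℝ := ⟨D.p w, D.p_extreme w⟩

lemma vert_injective : Function.Injective D.vert := fun _ _ h =>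
  D.pinj (congrArg Subtype.val h)

lemma vert_surjective : Function.Surjective D.vert := by
  rintro ⟨x, hx⟩
  have : x ∈ range D.p := by rw [← D.extremePoints_eq]; exact hx
  obtain ⟨w, rfl⟩ := this
  exact ⟨w, rfl⟩

lemma skel_adj_iff (w w' : D.W) : (skel D.P).Adj (D.vert w) (D.vert w') ↔ D.Adj w w' := by
  constructor
  · rintro ⟨h1, h2⟩
    exact D.adj_of_edge (fun h => h1 (by rw [h])) h2
  · intro h
    exact ⟨fun h' => h.1 (D.vert_injective h'), D.edge_of_adj h⟩

lemma adj_nb (w : D.W) (i : D.T w) : D.Adj w (D.nb w i) :=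
  ⟨(D.nb_ne w i).symm, i.1, i.2, fun _ hj hji => D.nb_mem w i hj hji⟩

lemma degree (v : D.P.extremePoints ℝ) : ((skel D.P).neighborSet v).ncard = d := by
  classical
  obtain ⟨w, rfl⟩ := D.vert_surjective v
  have hset : (skel D.P).neighborSet (D.vert w) = range fun i : D.T w => D.vert (D.nb w i) := by
    ext v'
    obtain ⟨w', rfl⟩ := D.vert_surjective v'
    rw [SimpleGraph.mem_neighborSet, D.skel_adj_iff]
    constructor
    · rintro ⟨hne, i, hi, hT⟩
      exact ⟨⟨i, hi⟩, congrArg D.vert (D.eq_nb hne.symm ⟨i, hi⟩ hT).symm⟩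
    · rintro ⟨i, hi⟩
      rw [← D.vert_injective hi]
      exact D.adj_nb w i
  have hinj : Function.Injective fun i : D.T w => D.vert (D.nb w i) := by
    intro i j hij
    by_contra hne
    have h1 : D.nb w i = D.nb w j := D.vert_injective hij
    apply D.nb_notMem w i
    rw [h1]
    exact D.nb_mem w j i.2 fun h => hne (Subtype.ext h)
  rw [hset, ← Set.image_univ, Set.ncard_image_of_injective _ hinj, Set.ncard_univ,
    Nat.card_eq_fintype_card, Fintype.card_coe, D.card]

lemma affineSpan_eq_top : affineSpan ℝ D.P = ⊤ := by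
  classical
  obtain ⟨w⟩ := D.ne
  rw [eq_top_iff]
  intro x _
  have hw : D.p w ∈ affineSpan ℝ D.P := subset_affineSpan ℝ _ (D.p_mem w)
  have hdir : x - D.p w ∈ (affineSpan ℝ D.P).direction := by
    rw [D.decomp w x]
    refine Submodule.sum_mem _ fun i _ => Submodule.smul_mem _ _ ?_
    exact AffineSubspace.vsub_mem_direction (subset_affineSpan ℝ _ (D.p_mem _)) hw
  have := AffineSubspace.vadd_mem_of_mem_direction hdir hw
  simpa using this

lemma isSimplePolytope : IsSimplePolytope D.P :=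
  ⟨D.isPoly, D.affineSpan_eq_top, D.degree⟩

end Cert

end Pool.Agent.Helper26.PolySep
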