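import Mathlib
import Pool.Agent.Helper26.PolySep.Cert

/-!
# The simplex truncated at `k` vertices

Vertices: `(l, l)` for the untouched vertices `l ≥ k` of the simplex, and `(i, j)`, `i < k`,
`j ≠ i`, for the new vertex near `i` on the edge `i j`.
-/

open Set Pool.Agent.Helper70.Poly

namespace Pool.Agent.Helper26.PolySep

variable {d k : ℕ}

/-- index type of the vertices of the truncated simplex -/
abbrev TW (d k : ℕ) : Type :=
  {p : Fin (d + 1) × Fin (d + 1) // (p.1 = p.2 ∧ k ≤ p.1.val) ∨ (p.1 ≠ p.2 ∧ p.1.val < k)}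

/-- barycentric coordinates (with sum `3`) -/
noncomputable def hc (w : TW d k) (r : Fin (d + 1)) : ℝ :=
  2 * (if r = w.1.1 then 1 else 0) + (if r = w.1.2 then 1 else 0)

lemma sum_hc (w : TW d k) : ∑ r, hc w r = 3 := by
  simp only [hc, Finset.sum_add_distrib, ← Finset.mul_sum, Finset.sum_ite_eq', Finset.mem_univ,
    if_true]
  norm_num

lemma hc_nonneg (w : TW d k) (r : Fin (d + 1)) : 0 ≤ hc w r := by
  unfold hc; split_ifs <;> norm_num

lemma hc_eq_zero (w : TW d k) (r : Fin (d + 1)) : hc w r = 0 ↔ r ≠ w.1.1 ∧ r ≠ w.1.2 := by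
  unfold hc
  split_ifs with h1 h2 h2 <;> simp [h1, h2] <;> norm_num

lemma hc_le (w : TW d k) (r : Fin (d + 1)) : hc w r ≤ 3 := by
  unfold hc; split_ifs <;> norm_num

lemma hc_le_two (w : TW d k) (r : Fin (d + 1)) (hr : r.val < k) : hc w r ≤ 2 := by
  unfold hc
  split_ifs with h1 h2 <;> norm_num
  rcases w.2 with h | h
  · have := h.2
    rw [← h1] at this
    omega
  · exact h.1 (h1.symm.trans h2)

lemma hc_eq_two (w : TW d k) (r : Fin (d + 1)) (hr : r.val < k) : hc w r = 2 ↔ r = w.1.1 := by
  constructor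
  · intro h
    by_contra hne
    unfold hc at h
    rw [if_neg hne] at h
    split_ifs at h <;> norm_num at h
  · intro h
    refine le_antisymm (hc_le_two w r hr) ?_
    unfold hc
    rw [if_pos h]
    split_ifs <;> norm_num

/-- the coordinates of the vertex -/
noncomputable def tp (w : TW d k) : Fin d → ℝ := fun r => hc w r.castSucc

/-- the (linear part of the) barycentric coordinates -/
noncomputable def Lr (r : Fin (d + 1)) : (Fin d → ℝ) →ₗ[ℝ] ℝ :=
  Fin.lastCases (motive := fun _ => (Fin d → ℝ) →ₗ[ℝ] ℝ) (-(∑ i, LinearMap.proj i))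
    (fun i => LinearMap.proj i) r

/-- constant part -/
noncomputable def cst (r : Fin (d + 1)) : ℝ := if r = Fin.last d then 3 else 0

lemma Lr_castSucc (i : Fin d) (x : Fin d → ℝ) : Lr i.castSucc x = x i := by
  simp [Lr]

lemma Lr_last (x : Fin d → ℝ) : Lr (Fin.last d) x = - ∑ i, x i := by
  simp [Lr]

lemma sum_Lr (x : Fin d → ℝ) : ∑ r, Lr r x = 0 := by
  rw [Fin.sum_univ_castSucc]
  simp [Lr_castSucc, Lr_last]

lemma Lr_tp (w : TW d k) (r : Fin (d + 1)) : Lr r (tp w) + cst r = hc w r := by
  refine Fin.lastCases ?_ (fun i => ?_) r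
  · rw [Lr_last, cst, if_pos rfl]
    have := sum_hc w
    rw [Fin.sum_univ_castSucc] at this
    simp only [tp]
    linarith
  · rw [Lr_castSucc, cst, if_neg (Fin.castSucc_lt_last i).ne]
    simp [tp]

open Classical in
/-- tight inequalities -/
noncomputable def tT (w : TW d k) : Finset (Fin (d + 1) ⊕ Fin d) :=
  Finset.univ.filter fun q => Sum.elim (fun r => r ≠ w.1.1 ∧ r ≠ w.1.2)
    (fun i => i.castSucc = w.1.1 ∧ i.val < k) q

lemma inl_mem {w : TW d k} {r : Fin (d + 1)} : Sum.inl r ∈ tT w ↔ r ≠ w.1.1 ∧ r ≠ w.1.2 := by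
  simp [tT]

lemma inr_mem {w : TW d k} {i : Fin d} : Sum.inr i ∈ tT w ↔ i.castSucc = w.1.1 ∧ i.val < k := by
  simp [tT]

lemma card_tT (hk : k ≤ d) (w : TW d k) : (tT w).card = d := by
  classical
  have h1 : (tT w).card = (Finset.univ.filter fun r : Fin (d + 1) => r ≠ w.1.1 ∧ r ≠ w.1.2).card +
      (Finset.univ.filter fun i : Fin d => i.castSucc = w.1.1 ∧ i.val < k).card := by
    rw [tT]
    simp only [Finset.card_filter]
    rw [Fintype.sum_sum_type]
    congr 1 <;>
    · refine Finset.sum_congr rfl fun x _ => ?_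
      simp only [Sum.elim_inl, Sum.elim_inr]
      congr
  rw [h1]
  have h2 : (Finset.univ.filter fun r : Fin (d + 1) => r ≠ w.1.1 ∧ r ≠ w.1.2) =
      Finset.univ \ {w.1.1, w.1.2} := by
    ext r
    simp
  rw [h2, Finset.card_sdiff_of_subset (Finset.subset_univ _), Finset.card_univ, Fintype.card_fin]
  rcases w.2 with h | h
  · rw [← h.1, Finset.pair_eq_singleton, Finset.card_singleton]
    have h3 : (Finset.univ.filter fun i : Fin d => i.castSucc = w.1.1 ∧ i.val < k) = ∅ := by
      rw [Finset.filter_eq_empty_iff]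
      rintro i _ ⟨h4, h5⟩
      have := h.2
      rw [← h4, Fin.val_castSucc] at this
      omega
    rw [h3, Finset.card_empty]
    omega
  · rw [Finset.card_pair h.1]
    have hlt : w.1.1.val < d := lt_of_lt_of_le h.2 hk
    have h3 : (Finset.univ.filter fun i : Fin d => i.castSucc = w.1.1 ∧ i.val < k) =
        {⟨w.1.1.val, hlt⟩} := by
      ext i
      simp only [Finset.mem_filter, Finset.mem_univ, true_and, Finset.mem_singleton]
      constructor
      · rintro ⟨h4, _⟩
        ext
        have := congrArg Fin.val h4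
        simpa using this
      · rintro rfl
        exact ⟨by ext; simp, h.2⟩
    rw [h3, Finset.card_singleton]
    omega

/-- the truncated simplex -/
noncomputable def trunc (d k : ℕ) (hk : k ≤ d) : Cert d where
  ι := Fin (d + 1) ⊕ Fin d
  W := TW d k
  finW := inferInstance
  ne := ⟨⟨(Fin.last d, Fin.last d), Or.inl ⟨rfl, by simpa using hk⟩⟩⟩
  a := Sum.elim (fun r => -(Lr r)) (fun i => LinearMap.proj i)
  b := Sum.elim cst (fun i => if i.val < k then 2 else 4)
  p := tp
  T := tT
  pinj := by
    intro w w' h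
    have hh : ∀ r, hc w r = hc w' r := fun r => by rw [← Lr_tp, ← Lr_tp, h]
    have h1 : w.1.1 = w'.1.1 := by
      by_contra hne
      have e1 := hh w.1.1
      unfold hc at e1
      rw [if_pos rfl, if_neg hne] at e1
      split_ifs at e1 <;> norm_num at e1
    have h2 : w.1.2 = w'.1.2 := by
      by_contra hne
      have e1 := hh w.1.2
      unfold hc at e1
      rw [h1, if_pos rfl, if_neg hne] at e1
      norm_num at e1
    exact Subtype.ext (Prod.ext h1 h2)
  le := by
    rintro w (r | i)
    · have := hc_nonneg w r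
      rw [← Lr_tp] at this
      simp only [Sum.elim_inl, LinearMap.neg_apply]
      linarith
    · simp only [Sum.elim_inr, LinearMap.proj_apply, tp]
      split_ifs with h
      · exact hc_le_two w _ (by simpa using h)
      · exact (hc_le w _).trans (by norm_num)
  tight := by
    rintro w (r | i)
    · rw [inl_mem, ← hc_eq_zero, ← Lr_tp]
      simp only [Sum.elim_inl, LinearMap.neg_apply]
      constructor <;> intro h <;> linarith
    · rw [inr_mem]
      simp only [Sum.elim_inr, LinearMap.proj_apply, tp]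
      split_ifs with h
      · rw [hc_eq_two w _ (by simpa using h)]
        tauto
      · constructor
        · intro h'
          have := hc_le w i.castSucc
          rw [h'] at this
          norm_num at this
        · intro h'
          exact absurd h'.2 h
  card := card_tT hk
  inj := by
    intro w x hx
    have hX : ∀ r, r ≠ w.1.2 → Lr r x = 0 := by
      intro r hr
      by_cases hr1 : r = w.1.1
      · rcases w.2 with h | h
        · exact absurd (hr1.trans h.1) hr
        · have hlt : w.1.1.val < d := lt_of_lt_of_le h.2 hk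
          have h3 := hx (Sum.inr ⟨w.1.1.val, hlt⟩) (inr_mem.mpr ⟨by ext; simp, h.2⟩)
          have h4 : r = (⟨w.1.1.val, hlt⟩ : Fin d).castSucc := by rw [hr1]; ext; simp
          rw [h4, Lr_castSucc]
          simpa using h3
      · have h3 := hx (Sum.inl r) (inl_mem.mpr ⟨hr1, hr⟩)
        simpa using h3
    have hX2 : Lr w.1.2 x = 0 := by
      have h1 := sum_Lr x
      rw [Finset.sum_eq_single w.1.2 (fun r _ hr => hX r hr)
        (fun h => absurd (Finset.mem_univ _) h)] at h1
      exact h1
    ext i
    rw [← Lr_castSucc i x]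
    by_cases h : i.castSucc = w.1.2
    · rw [h]; exact hX2
    · exact hX _ h
  nbr := by
    rintro w (m | i) hi
    · rw [inl_mem] at hi
      rcases w.2 with h | h
      · by_cases hm : m.val < k
        · refine ⟨⟨(m, w.1.2), Or.inr ⟨hi.2, hm⟩⟩, ?_, ?_⟩
          · intro h'
            exact hi.1 (congrArg (fun z : TW d k => z.1.1) h')
          · rintro (r | i') hr hne
            · rw [inl_mem] at hr ⊢
              exact ⟨fun h' => hne (by rw [h']), hr.2⟩
            · rw [inr_mem] at hr
              have := h.2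
              rw [← hr.1, Fin.val_castSucc] at this
              omega
        · refine ⟨⟨(m, m), Or.inl ⟨rfl, not_lt.mp hm⟩⟩, ?_, ?_⟩
          · intro h'
            exact hi.1 (congrArg (fun z : TW d k => z.1.1) h')
          · rintro (r | i') hr hne
            · rw [inl_mem]
              exact ⟨fun h' => hne (by rw [h']), fun h' => hne (by rw [h'])⟩
            · rw [inr_mem] at hr
              have := h.2
              rw [← hr.1, Fin.val_castSucc] at this
              omega
      · refine ⟨⟨(w.1.1, m), Or.inr ⟨Ne.symm hi.1, h.2⟩⟩, ?_, ?_⟩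
        · intro h'
          exact hi.2 (congrArg (fun z : TW d k => z.1.2) h')
        · rintro (r | i') hr hne
          · rw [inl_mem] at hr ⊢
            exact ⟨hr.1, fun h' => hne (by rw [h'])⟩
          · rw [inr_mem] at hr ⊢
            exact hr
    · rw [inr_mem] at hi
      have hw1 : w.1.1.val < k := by rw [← hi.1]; simpa using hi.2
      have hne : w.1.1 ≠ w.1.2 := by
        rcases w.2 with h | h
        · have := h.2; omega
        · exact h.1
      by_cases hj : w.1.2.val < k
      · refine ⟨⟨(w.1.2, w.1.1), Or.inr ⟨Ne.symm hne, hj⟩⟩, ?_, ?_⟩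
        · intro h'
          exact hne (congrArg (fun z : TW d k => z.1.1) h').symm
        · rintro (r | i') hr hne'
          · rw [inl_mem] at hr ⊢
            exact ⟨hr.2, hr.1⟩
          · rw [inr_mem] at hr
            exfalso
            apply hne'
            have : i'.castSucc = i.castSucc := hr.1.trans hi.1.symm
            rw [Fin.castSucc_injective _ this]
      · refine ⟨⟨(w.1.2, w.1.2), Or.inl ⟨rfl, not_lt.mp hj⟩⟩, ?_, ?_⟩
        · intro h'
          exact hne (congrArg (fun z : TW d k => z.1.1) h').symm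
        · rintro (r | i') hr hne'
          · rw [inl_mem] at hr ⊢
            exact ⟨hr.2, hr.2⟩
          · rw [inr_mem] at hr
            exfalso
            apply hne'
            have : i'.castSucc = i.castSucc := hr.1.trans hi.1.symm
            rw [Fin.castSucc_injective _ this]

/-- the nodes of the separating set -/
def InM (w : TW d k) : Prop := w.1.1 = w.1.2 ∨ (w.1.1 < w.1.2 ∧ w.1.2.val < k)

lemma label_eq (hk : k ≤ d) {w w' : TW d k} (h : (trunc d k hk).Adj w w') (hw : ¬ InM w)
    (hw' : ¬ InM w') : w.1.1 = w'.1.1 := by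
  obtain ⟨hne, c, hc, hcw⟩ := h
  change c ∈ tT w at hc
  have hcw' : ∀ j ∈ tT w, j ≠ c → j ∈ tT w' := hcw
  have h1 : w.1.1 ≠ w.1.2 := fun h => hw (Or.inl h)
  have h1' : w'.1.1 ≠ w'.1.2 := fun h => hw' (Or.inl h)
  have hlt : w.1.1.val < k := by
    rcases w.2 with h | h
    · exact absurd h.1 h1
    · exact h.2
  have hlt' : w'.1.1.val < k := by
    rcases w'.2 with h | h
    · exact absurd h.1 h1'
    · exact h.2
  have hltd : w.1.1.val < d := lt_of_lt_of_le hlt hk
  by_contra hlab
  have hmem : Sum.inr ⟨w.1.1.val, hltd⟩ ∈ tT w := inr_mem.mpr ⟨by ext; simp, hlt⟩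
  -- the dropped inequality must be the truncating one
  have hceq : c = Sum.inr ⟨w.1.1.val, hltd⟩ := by
    by_contra hne'
    have := hcw' _ hmem (Ne.symm hne')
    rw [inr_mem] at this
    apply hlab
    rw [← this.1]
    ext
    simp
  have hsub : ∀ r, r ≠ w.1.1 → r ≠ w.1.2 → r ≠ w'.1.1 ∧ r ≠ w'.1.2 := by
    intro r hr1 hr2
    have := hcw' (Sum.inl r) (inl_mem.mpr ⟨hr1, hr2⟩) (by rw [hceq]; simp)
    exact inl_mem.mp this
  have h2 : w'.1.1 = w.1.2 := by
    by_contra hne'
    exact (hsub w'.1.1 (Ne.symm hlab) hne').1 rfl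
  have h3 : w'.1.2 = w.1.1 := by
    by_contra hne'
    have h4 : w'.1.2 ≠ w.1.2 := fun h => h1' (h2.trans h.symm)
    exact (hsub w'.1.2 hne' h4).2 rfl
  rcases lt_or_gt_of_ne h1 with h5 | h5
  · exact hw (Or.inr ⟨h5, by rw [← h2]; exact hlt'⟩)
  · exact hw' (Or.inr ⟨by rw [h2, h3]; exact h5, by rw [h3]; exact hlt⟩)

end Pool.Agent.Helper26.PolySep
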