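import Mathlib
import Pool.Agent.Helper26.PolySep.Trunc

/-!
# The lower bound: the truncated simplex
-/

open Set Pool.Agent.Helper70.Poly

namespace Pool.Agent.Helper26.PolySep

variable {d k : ℕ}

open Classical in
/-- the base separating set -/
noncomputable def M0 (d k : ℕ) : Finset (TW d k) := Finset.univ.filter InM

/-- the separated node with label `i` -/
def n0 (hk : k ≤ d) (i : Fin k) : TW d k :=
  ⟨(⟨i.val, by omega⟩, Fin.last d), Or.inr ⟨fun h => by
    have := congrArg Fin.val h
    simp only [Fin.val_last] at this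
    omega, i.2⟩⟩

lemma n0_injective (hk : k ≤ d) : Function.Injective (n0 (d := d) (k := k) hk) := by
  intro i j h
  have := congrArg (fun z : TW d k => z.1.1.val) h
  exact Fin.ext this

lemma n0_label (hk : k ≤ d) (i : Fin k) : (n0 hk i).1.1.val = i.val := rfl

lemma n0_not_inM (hk : k ≤ d) (i : Fin k) : ¬ InM (n0 (d := d) hk i) := by
  rintro (h | h)
  · have := congrArg Fin.val h
    simp only [n0, Fin.val_last] at this
    omega
  · have := h.2
    simp only [n0, Fin.val_last] at this
    omega

lemma card_M0_le (hk0 : 1 ≤ k) (hk : k ≤ d) : (M0 d k).card ≤ d + (k - 1).choose 2 := by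
  classical
  set A : Finset (TW d k) := Finset.univ.filter fun w => w.1.1 = w.1.2 with hA
  set B : Finset (TW d k) := Finset.univ.filter fun w => w.1.1 < w.1.2 ∧ w.1.2.val < k with hB
  have hsub : M0 d k ⊆ A ∪ B := by
    intro w hw
    rw [M0, Finset.mem_filter] at hw
    rcases hw.2 with h | h
    · exact Finset.mem_union_left _ (Finset.mem_filter.mpr ⟨Finset.mem_univ _, h⟩)
    · exact Finset.mem_union_right _ (Finset.mem_filter.mpr ⟨Finset.mem_univ _, h⟩)
  have hAc : A.card ≤ d + 1 - k := by
    have h1 : A.card ≤ (Finset.Ico k (d + 1)).card := by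
      refine Finset.card_le_card_of_injOn (fun w => w.1.1.val) ?_ ?_
      · intro w hw
        have h := (Finset.mem_filter.mp hw).2
        rcases w.2 with h' | h'
        · exact Finset.mem_coe.mpr (Finset.mem_Ico.mpr ⟨h'.2, w.1.1.2⟩)
        · exact absurd h h'.1
      · intro w hw w' hw' h
        have e := (Finset.mem_filter.mp hw).2
        have e' := (Finset.mem_filter.mp hw').2
        have h2 : w.1.1 = w'.1.1 := Fin.ext h
        exact Subtype.ext (Prod.ext h2 (e.symm.trans (h2.trans e')))
    rwa [Nat.card_Ico] at h1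
  have hBc : B.card ≤ k.choose 2 := by
    have h1 : B.card ≤ ((Finset.range k).sigma fun j => Finset.range j).card := by
      refine Finset.card_le_card_of_injOn (fun w => ⟨w.1.2.val, w.1.1.val⟩) ?_ ?_
      · intro w hw
        have h := (Finset.mem_filter.mp hw).2
        exact Finset.mem_coe.mpr (Finset.mem_sigma.mpr
          ⟨Finset.mem_range.mpr h.2, Finset.mem_range.mpr h.1⟩)
      · intro w _ w' _ h
        simp only [Sigma.mk.injEq, heq_eq_eq] at h
        exact Subtype.ext (Prod.ext (Fin.ext h.2) (Fin.ext h.1))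
    rw [Finset.card_sigma] at h1
    simp only [Finset.card_range] at h1
    rw [Finset.sum_range_id, ← Nat.choose_two_right] at h1
    exact h1
  have hch : k.choose 2 = (k - 1).choose 2 + (k - 1) := by
    obtain ⟨m, rfl⟩ : ∃ m, k = m + 1 := ⟨k - 1, by omega⟩
    rw [Nat.add_sub_cancel, Nat.choose_succ_succ' m 1]
    simp
    ring
  calc (M0 d k).card ≤ (A ∪ B).card := Finset.card_le_card hsub
    _ ≤ A.card + B.card := Finset.card_union_le _ _
    _ ≤ (d + 1 - k) + k.choose 2 := Nat.add_le_add hAc hBc
    _ = d + (k - 1).choose 2 := by omega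

lemma card_univ_ge (hk : k ≤ d) : (d + 1 - k) + k * d ≤ Fintype.card (TW d k) := by
  classical
  let g : Fin (d + 1 - k) ⊕ (Fin k × Fin d) → TW d k := fun q =>
    match q with
    | Sum.inl l => ⟨(⟨k + l.val, by omega⟩, ⟨k + l.val, by omega⟩), Or.inl ⟨rfl, by simp⟩⟩
    | Sum.inr (i, j) => ⟨(⟨i.val, by omega⟩, (⟨i.val, by omega⟩ : Fin (d + 1)).succAbove j),
        Or.inr ⟨(Fin.succAbove_ne _ _).symm, i.2⟩⟩
  have hg : Function.Injective g := by
    rintro (l | ⟨i, j⟩) (l' | ⟨i', j'⟩) h
    · have := congrArg (fun z : TW d k => z.1.1.val) h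
      simp only [g] at this
      congr 1
      ext
      omega
    · exfalso
      have := congrArg (fun z : TW d k => z.1.1.val) h
      simp only [g] at this
      omega
    · exfalso
      have := congrArg (fun z : TW d k => z.1.1.val) h
      simp only [g] at this
      omega
    · have h1 := congrArg (fun z : TW d k => z.1.1.val) h
      simp only [g] at h1
      have h2 : i = i' := Fin.ext h1
      subst h2
      have h3 := congrArg (fun z : TW d k => z.1.2) h
      simp only [g] at h3
      have h4 := Fin.succAbove_right_injective h3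
      rw [h4]
  have := Fintype.card_le_of_injective g hg
  simpa using this

/-- `k` nodes can be totally separated by `n` nodes. -/
theorem mem_sepCards {n : ℕ} (hk0 : 2 ≤ k) (hk : k ≤ d) (h1 : d + (k - 1).choose 2 ≤ n)
    (h2 : n < d + k.choose 2) : k ∈ sepCards n d := by
  classical
  set D := trunc d k hk with hD
  set N0 : Finset (TW d k) := Finset.univ.image (n0 hk) with hN0
  have hN0card : N0.card = k := by
    rw [hN0, Finset.card_image_of_injective _ (n0_injective hk)]
    simp
  have hMN : M0 d k ⊆ Finset.univ \ N0 := by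
    intro w hw
    rw [Finset.mem_sdiff]
    refine ⟨Finset.mem_univ _, fun h => ?_⟩
    obtain ⟨i, _, rfl⟩ := Finset.mem_image.mp h
    exact n0_not_inM hk i (Finset.mem_filter.mp hw).2
  have hn : n ≤ (Finset.univ \ N0).card := by
    rw [Finset.card_sdiff_of_subset (Finset.subset_univ _), hN0card, Finset.card_univ]
    have h3 := card_univ_ge (d := d) (k := k) hk
    have h4 : 2 * k.choose 2 = k * (k - 1) := by
      rw [Nat.choose_two_right]
      exact Nat.mul_div_cancel' (Nat.even_mul_pred_self k).two_dvd
    obtain ⟨m, rfl⟩ : ∃ m, k = m + 2 := ⟨k - 2, by omega⟩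
    obtain ⟨c, rfl⟩ : ∃ c, d = m + 2 + c := ⟨d - (m + 2), by omega⟩
    have e1 : m + 2 - 1 = m + 1 := by omega
    rw [e1] at h4
    have h5 : (m + 2) * (m + 1) = m * m + 3 * m + 2 := by ring
    have h6 : (m + 2) * (m + 2 + c) = m * m + 4 * m + 4 + m * c + 2 * c := by ring
    have h7 : m ≤ m * m + 1 := by nlinarith
    omega
  obtain ⟨Ms, hMs1, hMs2, hMscard⟩ := Finset.exists_subsuperset_card_eq hMN
    ((card_M0_le (by omega) hk).trans h1) hn
  let vt : TW d k → D.P.extremePoints ℝ := D.vert
  have hinj : Function.Injective vt := D.vert_injective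
  refine ⟨D.P, D.isSimplePolytope, Ms.image vt, N0.image vt, ?_, ?_, ?_, ?_⟩
  · rw [Finset.card_image_of_injective _ hinj, hMscard]
  · rw [Finset.card_image_of_injective _ hinj, hN0card]
  · rw [Finset.disjoint_left]
    intro x hx hx'
    obtain ⟨w, hw, rfl⟩ := Finset.mem_image.mp hx
    obtain ⟨w', hw', h⟩ := Finset.mem_image.mp hx'
    have := hinj h
    subst this
    exact (Finset.mem_sdiff.mp (hMs2 hw)).2 hw'
  · have key : ∀ {a b : D.P.extremePoints ℝ} (p : (skel D.P).Walk a b),
        (∀ x ∈ p.support, x ∉ Ms.image vt) → ∀ w w' : TW d k, a = vt w → b = vt w' →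
          w.1.1 = w'.1.1 := by
      intro a b p
      induction p with
      | nil =>
        intro _ w w' hw hw'
        rw [hinj (hw.symm.trans hw')]
      | @cons a c b hac p ih =>
        intro hp w w' hw hw'
        obtain ⟨wc, hwc⟩ : ∃ wc : TW d k, vt wc = c := D.vert_surjective c
        have e1 : wc.1.1 = w'.1.1 := ih (fun x hx => hp x (by
          rw [SimpleGraph.Walk.support_cons]
          exact List.mem_cons_of_mem _ hx)) wc w' hwc.symm hw'
        have hadj : D.Adj w wc := by
          refine (D.skel_adj_iff w wc).mp ?_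
          change (skel D.P).Adj (vt w) (vt wc)
          rw [← hw, hwc]
          exact hac
        have hnw : ¬ InM w := by
          intro h
          apply hp a (by simp)
          rw [hw]
          exact Finset.mem_image_of_mem _ (hMs1 (Finset.mem_filter.mpr ⟨Finset.mem_univ _, h⟩))
        have hnwc : ¬ InM wc := by
          intro h
          apply hp c (by
            rw [SimpleGraph.Walk.support_cons]
            exact List.mem_cons_of_mem _ (SimpleGraph.Walk.start_mem_support p))
          rw [← hwc]
          exact Finset.mem_image_of_mem _ (hMs1 (Finset.mem_filter.mpr ⟨Finset.mem_univ _, h⟩))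
        exact (label_eq hk hadj hnw hnwc).trans e1
    intro a ha b hb hab p _
    by_contra hcon
    push Not at hcon
    obtain ⟨w, hw, rfl⟩ := Finset.mem_image.mp ha
    obtain ⟨w', hw', rfl⟩ := Finset.mem_image.mp hb
    obtain ⟨i, _, rfl⟩ := Finset.mem_image.mp hw
    obtain ⟨j, _, rfl⟩ := Finset.mem_image.mp hw'
    have h3 := key p hcon _ _ rfl rfl
    have h5 : (n0 (d := d) hk i).1.1.val = (n0 (d := d) hk j).1.1.val := congrArg Fin.val h3
    rw [n0_label, n0_label] at h5
    have h4 : i = j := Fin.ext h5
    exact hab (by rw [h4])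

end Pool.Agent.Helper26.PolySep
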